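import Pool.Agent.DS.Arith2

/-!
# Arithmetic for the prime power theorem

* `no_norm`: the form `x ^ 2 - K x y - y ^ 2` does not represent `Q` or `-Q` primitively if
  `2 ≤ Q < K` (descent);
* `t_le`: `t ≤ r - t` in the exceptional case;
* `local_arith3`: the conclusions for one prime;
* `two_a`, `two_b`: the equations for two different primes are contradictory.
-/

set_option autoImplicit false

namespace Pool.Agent.DSP

theorem no_norm {K Q : ℤ} (hQ : 2 ≤ Q) (hK : Q < K) (n : ℕ) : ∀ (x y N : ℤ), x ≤ n → 1 ≤ x →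
    1 ≤ y → IsCoprime x y → (N = Q ∨ N = -Q) → x ^ 2 - K * x * y - y ^ 2 = N → False := by
  induction n with
  | zero =>
    intro x y N h1 h2
    push_cast at h1
    omega
  | succ n ih =>
    intro x y N h1 hx hy hc hN h
    have hNlo : -Q ≤ N := by rcases hN with h | h <;> omega
    have hxy1 : 1 ≤ x * y := by nlinarith
    have hKxy : K ≤ K * x * y := by
      have : K * 1 ≤ K * (x * y) := mul_le_mul_of_nonneg_left hxy1 (by omega)
      nlinarith
    have hyx : y < x := by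
      by_contra hcon
      push Not at hcon
      have : x ^ 2 ≤ y ^ 2 := by nlinarith
      omega
    obtain ⟨x', hx'⟩ : ∃ x', x' = x - K * y := ⟨_, rfl⟩
    have hprod : x * x' = y ^ 2 + N := by
      rw [hx']
      linear_combination h
    rcases lt_trichotomy x' 0 with hneg | hzero | hpos
    · have h3 : 0 ≤ (x - 1) * (-x' - 1) := mul_nonneg (by omega) (by omega)
      have h4 : K ≤ K * y := by nlinarith
      have h5 : x * x' = x * x' := rfl
      have h6 : 1 ≤ y ^ 2 := by nlinarith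
      have h7 : x + -x' = K * y := by rw [hx']; ring
      have h8 : (x - 1) * (-x' - 1) = -(x * x') - (x + -x') + 1 := by ring
      rw [h8, h7, hprod] at h3
      omega
    · have hx2 : x = K * y := by omega
      have hu : IsUnit y := hc.isUnit_of_dvd' ⟨K, by rw [hx2]; ring⟩ dvd_rfl
      have hy1 : y = 1 := by
        rcases Int.isUnit_iff.1 hu with h | h <;> omega
      rw [hzero, hy1] at hprod
      rcases hN with h | h <;> omega
    · refine ih y x' (-N) (by push_cast at h1; omega) hy (by omega) ?_ ?_ ?_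
      · have h9 := hc.symm.add_mul_left_right (-K)
        have h10 : x + y * -K = x' := by rw [hx']; ring
        rwa [h10] at h9
      · rcases hN with h | h
        · right; omega
        · left; omega
      · rw [hx'] at hprod ⊢
        linear_combination -h

theorem t_le {p t e Y Z : ℕ} {u : ℤ} (hp3 : 3 ≤ p) (hY : 0 < Y) (hZ : 0 < Z)
    (hYZ : Y + Z = p ^ t) (hu : Odd u)
    (h : 4 * u * Y * Z = (Z - Y) * (p : ℤ) ^ e + 1) : t ≤ e := by
  by_contra hcon
  push Not at hcon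
  obtain ⟨k, hk⟩ : ∃ k, t = e + (k + 1) := ⟨t - e - 1, by omega⟩
  have hp3' : (3 : ℤ) ≤ p := by exact_mod_cast hp3
  obtain ⟨Q, hQ⟩ : ∃ Q : ℤ, Q = (p : ℤ) ^ (k + 1) := ⟨_, rfl⟩
  have hQ3 : 3 ≤ Q := by
    rw [hQ, pow_succ]
    have : (1 : ℤ) ≤ (p : ℤ) ^ k := one_le_pow₀ (by omega)
    nlinarith
  have hT : (Y : ℤ) + Z = (p : ℤ) ^ e * Q := by
    have : ((Y + Z : ℕ) : ℤ) = ((p ^ t : ℕ) : ℤ) := by rw [hYZ]
    push_cast at this
    rw [this, hk, pow_add, hQ]
  have hYi : (1 : ℤ) ≤ Y := by exact_mod_cast hY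
  have hZi : (1 : ℤ) ≤ Z := by exact_mod_cast hZ
  have hcop : IsCoprime (Y : ℤ) Z := ⟨(p : ℤ) ^ e, 4 * u * Y - (p : ℤ) ^ e, by linear_combination h⟩
  have hmul : 4 * u * Q * Y * Z = (Z : ℤ) ^ 2 - (Y : ℤ) ^ 2 + Q := by
    linear_combination Q * h - ((Z : ℤ) - Y) * hT
  have hu0 : u ≠ 0 := by
    rintro rfl
    exact absurd hu (by decide)
  rcases lt_or_gt_of_ne hu0 with hneg | hpos
  · have hK : Q < -4 * u * Q := by nlinarith
    exact no_norm (by omega) hK Y Y Z Q le_rfl hYi hZi hcop (Or.inl rfl)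
      (by linear_combination hmul)
  · have hK : Q < 4 * u * Q := by nlinarith
    exact no_norm (by omega) hK Z Z Y (-Q) le_rfl hZi hYi hcop.symm (Or.inr rfl)
      (by linear_combination -hmul)

theorem u_pos {E Y Z u X : ℤ} (hE : 3 ≤ E) (hY : 1 ≤ Y) (hZ : 1 ≤ Z) (hu : Odd u)
    (h : 4 * u * Y * Z = (Z - Y) * E + 1) (h' : E = X - u * (Z - Y)) : E + 1 ≤ X := by
  have hYZ : 1 ≤ Y * Z := by nlinarith
  have hu0 : u ≠ 0 := by
    rintro rfl
    exact absurd hu (by decide)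
  rcases lt_or_gt_of_ne hu0 with hneg | hpos
  · have h1 : Z - Y < 0 := by
      by_contra hcon
      push Not at hcon
      have : 0 ≤ (Z - Y) * E := mul_nonneg hcon (by omega)
      nlinarith
    nlinarith
  · have h1 : 0 < Z - Y := by
      by_contra hcon
      push Not at hcon
      rcases eq_or_lt_of_le hcon with h0 | h0
      · rw [h0] at h
        have : 4 * (u * (Y * Z)) = 1 := by linear_combination h
        omega
      · have : (Z - Y) * E ≤ -1 * E := mul_le_mul_of_nonneg_right (by omega) (by omega)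
        nlinarith
    nlinarith

/-- The local equation for odd order: all conclusions for one prime. -/
theorem local_arith3 {p : ℕ} (hp : p.Prime) (hp2 : p ≠ 2) {c t r : ℕ} (hc : 1 ≤ c) (hr : 1 ≤ r)
    (a δ : ℤ) (hδ : δ = 1 ∨ δ = -1) (h0 : 0 ≤ a) (h1 : a ≤ (p : ℤ) ^ t) (h2 : 0 ≤ a + δ)
    (h3 : a + δ ≤ (p : ℤ) ^ t) (ha : ((p : ℤ) - 1) ∣ a - 1) (ha' : ((p : ℤ) - 1) ∣ a + δ)
    (hE : 2 ^ c * a * ((p : ℤ) ^ t - a) + δ * ((p : ℤ) ^ t - 2 * a) = (p : ℤ) ^ (t + r))
    (hne : ¬ (c = 2 ∧ t = r)) :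
    0 < a ∧ a < (p : ℤ) ^ t ∧ 1 ≤ t ∧ 2 * t ≤ r ∧ 4 * (p : ℤ) ^ t ≤ 2 ^ c ∧
      4 * p ^ (r - t) < 2 ^ c ∧ ∃ Y Z x y : ℕ, Y + Z = p ^ t ∧ x + y = 2 ^ (c - 1) ∧
        Y * x = Z * y + 1 ∧ Y * x + Z * y = p ^ r ∧ (p ≠ 3 → (p - 1) ∣ Z) := by
  have hp3 : 3 ≤ p := by
    have := hp.two_le
    omega
  obtain ⟨Y, Z, hYZ, heq, hdiv, haYZ⟩ : ∃ Y Z : ℕ, Y + Z = p ^ t ∧
      2 ^ c * Y * Z + 2 * Y = p ^ t * (p ^ r + 1) ∧ (5 ≤ p → (p - 1) ∣ Z) ∧
      (a = Z ∨ a = Y) := by
    rcases hδ with rfl | rfl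
    · have h5 : ((p : ℤ) - 1) ∣ 2 := by
        have h6 := dvd_sub ha' ha
        have h7 : a + 1 - (a - 1) = 2 := by ring
        rwa [h7] at h6
      have h6 : (p : ℤ) - 1 ≤ 2 := Int.le_of_dvd (by norm_num) h5
      obtain ⟨Y, hY⟩ := Int.eq_ofNat_of_zero_le (sub_nonneg.2 h1)
      obtain ⟨Z, hZ⟩ := Int.eq_ofNat_of_zero_le h0
      refine ⟨Y, Z, ?_, ?_, fun h => by omega, Or.inl hZ⟩
      · have : ((Y + Z : ℕ) : ℤ) = ((p ^ t : ℕ) : ℤ) := by
          push_cast
          rw [← hY, ← hZ]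
          ring
        exact_mod_cast this
      · have : ((2 ^ c * Y * Z + 2 * Y : ℕ) : ℤ) = ((p ^ t * (p ^ r + 1) : ℕ) : ℤ) := by
          push_cast
          rw [← hY, ← hZ]
          rw [pow_add] at hE
          linear_combination hE
        exact_mod_cast this
    · obtain ⟨Z, hZ⟩ := Int.eq_ofNat_of_zero_le (sub_nonneg.2 h1)
      obtain ⟨Y, hY⟩ := Int.eq_ofNat_of_zero_le h0
      refine ⟨Y, Z, ?_, ?_, fun _ => ?_, Or.inr hY⟩
      · have : ((Y + Z : ℕ) : ℤ) = ((p ^ t : ℕ) : ℤ) := by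
          push_cast
          rw [← hY, ← hZ]
          ring
        exact_mod_cast this
      · have : ((2 ^ c * Y * Z + 2 * Y : ℕ) : ℤ) = ((p ^ t * (p ^ r + 1) : ℕ) : ℤ) := by
          push_cast
          rw [← hY, ← hZ]
          rw [pow_add] at hE
          linear_combination hE
        exact_mod_cast this
      · have h5 : ((p : ℤ) - 1) ∣ (p : ℤ) ^ t - 1 := by
          simpa using sub_dvd_pow_sub_pow (p : ℤ) 1 t
        have h6 : ((p : ℤ) - 1) ∣ (Z : ℤ) := by
          rw [show (Z : ℤ) = ((p : ℤ) ^ t - 1) - (a - 1) by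
            have : (Z : ℤ) = (p : ℤ) ^ t - a := hZ.symm
            rw [this]
            ring]
          exact dvd_sub h5 ha
        have h7 : (((p - 1 : ℕ) : ℤ)) ∣ (Z : ℤ) := by
          rw [Nat.cast_sub hp.one_le]
          exact_mod_cast h6
        exact_mod_cast h7
  obtain ⟨hY, hZ, ht, hpY⟩ := Pool.Agent.Helper20.DS.coprime_of_eq hp hp2 hr hYZ heq
  obtain ⟨hi2, x, y, hx, hy, hxy, hxY, hyZ, hdet⟩ :=
    Pool.Agent.Helper20.DS.matrix_form hp hp2 hr hc hYZ heq
  rcases Pool.Agent.Helper20.DS.u_form hp hp2 hr hc hYZ heq with h | ⟨hc3, e, he, hre, u, hu, h4, h5⟩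
  · exact absurd h hne
  have hte : t ≤ e := t_le hp3 hY hZ hYZ hu h4
  have hYi : (1 : ℤ) ≤ Y := by exact_mod_cast hY
  have hZi : (1 : ℤ) ≤ Z := by exact_mod_cast hZ
  have hYZi : (Y : ℤ) + Z = (p : ℤ) ^ t := by exact_mod_cast hYZ
  have hp3' : (3 : ℤ) ≤ p := by exact_mod_cast hp3
  have hE3 : (3 : ℤ) ≤ (p : ℤ) ^ e := by
    calc (3 : ℤ) ≤ (p : ℤ) := hp3'
      _ = (p : ℤ) ^ 1 := (pow_one _).symm
      _ ≤ (p : ℤ) ^ e := pow_le_pow_right₀ (by omega) he
  have hX := u_pos hE3 hYi hZi hu h4 h5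
  have h2c : (2 : ℤ) ^ c = 4 * 2 ^ (c - 2) := by
    obtain ⟨c', rfl⟩ : ∃ c', c = c' + 2 := ⟨c - 2, by omega⟩
    rw [Nat.add_sub_cancel, pow_add]
    ring
  have hbig : 4 * (p : ℤ) ^ e < 2 ^ c := by
    rw [h2c]
    linarith
  refine ⟨?_, ?_, ht, by omega, ?_, ?_, Y, Z, x, y, hYZ, hxy, ?_, ?_, fun h3 => hdiv ?_⟩
  · rcases haYZ with h | h <;> rw [h] <;> omega
  · rcases haYZ with h | h <;> rw [h] <;> omega
  · have h6 : (p : ℤ) ^ t ≤ (p : ℤ) ^ e := pow_le_pow_right₀ (by omega) hte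
    linarith
  · have h6 : r - t = e := by omega
    rw [h6]
    exact_mod_cast hbig
  · rw [mul_comm Y x, hdet, mul_comm]
  · have h7 : x * Y = Y * x := mul_comm _ _
    have h8 : y * Z = Z * y := mul_comm _ _
    omega
  · have h4' : p ≠ 4 := by
      rintro rfl
      exact absurd hp (by norm_num)
    omega

/-- Two primes, both signs `-1`. -/
theorem two_a {M T T' N1 N2 c c' : ℤ} (hT : 3 ≤ T) (hT' : 3 ≤ T') (hM : 4 * T ≤ M)
    (hM' : 4 * T' ≤ M) (hc : 1 ≤ c) (hcT : c ≤ T - 1) (hc' : 1 ≤ c') (hcT' : c' ≤ T' - 1)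
    (e1 : c * (M * (T - c) - 2) = T * (N1 - 1)) (e2 : c' * (M * (T' - c') - 2) = T' * (N2 - 1))
    (e3 : c' * (T - 1) = c * (T' - 1))
    (e4 : (T * c' + c) * (M * (T * T' - (T * c' + c)) - 2) = T * T' * (N1 * N2 - 1)) : False := by
  have key : c * (M * (T - c) - 2) * (M * (T' - c') - 2) =
      M * (T * T' * (T - 1) - c * (T * T' + 1)) + 2 * (T - 1) := by
    have hτ : (0 : ℚ) < (T : ℚ) - 1 := by
      have : (3 : ℚ) ≤ T := by exact_mod_cast hT
      linarith
    have hτ' : (0 : ℚ) < (T' : ℚ) - 1 := by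
      have : (3 : ℚ) ≤ T' := by exact_mod_cast hT'
      linarith
    obtain ⟨ρ, hρ⟩ : ∃ ρ : ℚ, ρ = c / (T - 1) := ⟨_, rfl⟩
    have hcρ : (c : ℚ) = ρ * (T - 1) := by
      rw [hρ]
      field_simp
    have hc'ρ : (c' : ℚ) = ρ * (T' - 1) := by
      have h1 : (c' : ℚ) * (T - 1) = c * (T' - 1) := by exact_mod_cast e3
      have h2 : (c' : ℚ) * (T - 1) = (ρ * (T' - 1)) * (T - 1) := by
        rw [h1, hcρ]
        ring
      exact mul_right_cancel₀ hτ.ne' h2
    have hρ0 : 0 < ρ := by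
      rw [hρ]
      have : (1 : ℚ) ≤ c := by exact_mod_cast hc
      positivity
    have f1 : (c : ℚ) * (M * (T - c) - 2) = T * (N1 - 1) := by exact_mod_cast e1
    have f2 : (c' : ℚ) * (M * (T' - c') - 2) = T' * (N2 - 1) := by exact_mod_cast e2
    have f4 : ((T : ℚ) * c' + c) * (M * (T * T' - (T * c' + c)) - 2) = T * T' * (N1 * N2 - 1) := by
      exact_mod_cast e4
    rw [hcρ] at f1 f4
    rw [hc'ρ] at f2 f4
    have g : (ρ * (T - 1) * (T' - 1)) * (ρ * (M * (T - ρ * (T - 1)) - 2) *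
        (M * (T' - ρ * (T' - 1)) - 2) - (M * (T * T' - ρ * (T * T' + 1)) + 2)) = 0 := by
      linear_combination (ρ * (T' - 1) * (M * (T' - ρ * (T' - 1)) - 2) + T') * f1 +
        T * N1 * f2 - f4
    have hpos : ρ * ((T : ℚ) - 1) * (T' - 1) ≠ 0 := by positivity
    have g2 := (mul_eq_zero.mp g).resolve_left hpos
    have g3 : (c : ℚ) * (M * (T - c) - 2) * (M * (T' - c') - 2) =
        M * (T * T' * (T - 1) - c * (T * T' + 1)) + 2 * (T - 1) := by
      rw [hcρ, hc'ρ]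
      linear_combination (T - 1 : ℚ) * g2
    exact_mod_cast g3
  -- the inequality
  obtain ⟨D, hD⟩ : ∃ D, D = T - 1 - c := ⟨_, rfl⟩
  obtain ⟨D', hD'⟩ : ∃ D', D' = T' - 1 - c' := ⟨_, rfl⟩
  have hD0 : 0 ≤ D := by omega
  have hD'0 : 0 ≤ D' := by omega
  have e5 : D' * (T - 1) = D * (T' - 1) := by
    rw [hD, hD']
    linear_combination -e3
  have hM12 : 12 ≤ M := by omega
  have k1 : c * (M * D + (M - 2)) * (M * D' + (M - 2)) =
      M * (D * (T * T' + 1)) - (M - 2) * (T - 1) := by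
    rw [hD, hD']
    linear_combination key
  have hD1 : 1 ≤ D := by
    by_contra hcon
    have h0 : D = 0 := by omega
    rw [h0] at k1
    have h1 : 0 < c * (M * 0 + (M - 2)) * (M * D' + (M - 2)) := by
      have : 0 ≤ M * D' := mul_nonneg (by omega) hD'0
      have h2 : 0 < M * D' + (M - 2) := by omega
      have h3 : 0 < M * 0 + (M - 2) := by omega
      positivity
    have h4 : 0 < (M - 2) * (T - 1) := mul_pos (by omega) (by omega)
    nlinarith
  have k2 : c * (M * D) * (M * D') ≤ M * (D * (T * T' + 1)) := by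
    have h1 : c * (M * D) * (M * D') ≤ c * (M * D + (M - 2)) * (M * D' + (M - 2)) := by
      have h2 : 0 ≤ M * D := mul_nonneg (by omega) hD0
      have h3 : 0 ≤ M * D' := mul_nonneg (by omega) hD'0
      apply mul_le_mul
      · exact mul_le_mul_of_nonneg_left (by omega) (by omega)
      · omega
      · exact h3
      · exact mul_nonneg (by omega) (by omega)
    have h4 : 0 ≤ (M - 2) * (T - 1) := mul_nonneg (by omega) (by omega)
    linarith
  have k3 : c * (M * D') ≤ T * T' + 1 := by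
    have h1 : (M * D) * (c * (M * D')) ≤ (M * D) * (T * T' + 1) := by
      have e6 : (M * D) * (c * (M * D')) = c * (M * D) * (M * D') := by ring
      have e7 : (M * D) * (T * T' + 1) = M * (D * (T * T' + 1)) := by ring
      rw [e6, e7]
      exact k2
    exact le_of_mul_le_mul_left h1 (by positivity)
  have k4 : 4 * (c * D') ≤ T' := by
    have h1 : (4 * T) * (c * D') ≤ M * (c * D') :=
      mul_le_mul_of_nonneg_right hM (mul_nonneg (by omega) hD'0)
    have h2 : T * (4 * (c * D') - T') ≤ 1 := by nlinarith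
    by_contra hcon
    push Not at hcon
    have h3 : 1 ≤ 4 * (c * D') - T' := by omega
    nlinarith
  have k5 : 4 * (c * D) * (T' - 1) ≤ T' * (T - 1) := by
    have h1 : 4 * (c * D') * (T - 1) ≤ T' * (T - 1) := mul_le_mul_of_nonneg_right k4 (by omega)
    have h2 : 4 * (c * D') * (T - 1) = 4 * (c * D) * (T' - 1) := by
      linear_combination (4 * c) * e5
    linarith
  have k6 : T - 2 ≤ c * D := by
    have : 0 ≤ (c - 1) * (D - 1) := mul_nonneg (by omega) (by omega)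
    have h1 : (c - 1) * (D - 1) = c * D - (c + D) + 1 := by ring
    have h2 : c + D = T - 1 := by omega
    rw [h1, h2] at this
    omega
  have k7 : 4 * (T - 2) * (T' - 1) ≤ T' * (T - 1) := by
    have : 4 * (T - 2) * (T' - 1) ≤ 4 * (c * D) * (T' - 1) :=
      mul_le_mul_of_nonneg_right (by omega) (by omega)
    linarith
  obtain ⟨x, hx⟩ : ∃ x, x = T - 3 := ⟨_, rfl⟩
  obtain ⟨y, hy⟩ : ∃ y, y = T' - 3 := ⟨_, rfl⟩
  have hx0 : 0 ≤ x := by omega
  have hy0 : 0 ≤ y := by omega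
  have e8 : T = x + 3 := by omega
  have e9 : T' = y + 3 := by omega
  rw [e8, e9] at k7
  nlinarith [mul_nonneg hx0 hy0]

/-- Two primes, signs `1` and `-1`. -/
theorem two_b {M T T' N1 N2 c c' g : ℤ} (hT : 3 ≤ T) (hT' : 3 ≤ T') (hM' : 4 * T' ≤ M)
    (hc : 1 ≤ c) (hcT : c ≤ T - 1) (hc' : 1 ≤ c') (hcT' : c' ≤ T' - 1)
    (hg : 4 ≤ g) (hg1 : g ∣ c') (hg2 : g ∣ T' - 1)
    (e1 : c * (M * (T - c) + 2) = T * (N1 + 1)) (e2 : c' * (M * (T' - c') - 2) = T' * (N2 - 1))
    (e3 : c' * (T + 1) = c * (T' - 1))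
    (e4 : (T * c' + c) * (M * (T * T' - (T * c' + c)) + 2) = T * T' * (N1 * N2 + 1)) : False := by
  have key : c * (M * (T - c) + 2) * (M * (T' - c') - 2) =
      M * (T * T' * (T + 1) - c * (T * T' - 1)) - 2 * (T + 1) := by
    have hτ : (0 : ℚ) < (T : ℚ) + 1 := by
      have : (3 : ℚ) ≤ T := by exact_mod_cast hT
      linarith
    have hτ' : (0 : ℚ) < (T' : ℚ) - 1 := by
      have : (3 : ℚ) ≤ T' := by exact_mod_cast hT'
      linarith
    obtain ⟨ρ, hρ⟩ : ∃ ρ : ℚ, ρ = c / (T + 1) := ⟨_, rfl⟩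
    have hcρ : (c : ℚ) = ρ * (T + 1) := by
      rw [hρ]
      field_simp
    have hc'ρ : (c' : ℚ) = ρ * (T' - 1) := by
      have h1 : (c' : ℚ) * (T + 1) = c * (T' - 1) := by exact_mod_cast e3
      have h2 : (c' : ℚ) * (T + 1) = (ρ * (T' - 1)) * (T + 1) := by
        rw [h1, hcρ]
        ring
      exact mul_right_cancel₀ hτ.ne' h2
    have hρ0 : 0 < ρ := by
      rw [hρ]
      have : (1 : ℚ) ≤ c := by exact_mod_cast hc
      positivity
    have f1 : (c : ℚ) * (M * (T - c) + 2) = T * (N1 + 1) := by exact_mod_cast e1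
    have f2 : (c' : ℚ) * (M * (T' - c') - 2) = T' * (N2 - 1) := by exact_mod_cast e2
    have f4 : ((T : ℚ) * c' + c) * (M * (T * T' - (T * c' + c)) + 2) = T * T' * (N1 * N2 + 1) := by
      exact_mod_cast e4
    rw [hcρ] at f1 f4
    rw [hc'ρ] at f2 f4
    have g : (ρ * (T + 1) * (T' - 1)) * (ρ * (M * (T - ρ * (T + 1)) + 2) *
        (M * (T' - ρ * (T' - 1)) - 2) - (M * (T * T' - ρ * (T * T' - 1)) - 2)) = 0 := by
      linear_combination (ρ * (T' - 1) * (M * (T' - ρ * (T' - 1)) - 2) + T') * f1 +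
        T * N1 * f2 - f4
    have hpos : ρ * ((T : ℚ) + 1) * (T' - 1) ≠ 0 := by positivity
    have g2 := (mul_eq_zero.mp g).resolve_left hpos
    have g3 : (c : ℚ) * (M * (T - c) + 2) * (M * (T' - c') - 2) =
        M * (T * T' * (T + 1) - c * (T * T' - 1)) - 2 * (T + 1) := by
      rw [hcρ, hc'ρ]
      linear_combination (T + 1 : ℚ) * g2
    exact_mod_cast g3
  obtain ⟨d, hd⟩ : ∃ d, d = T - c := ⟨_, rfl⟩
  obtain ⟨D', hD'⟩ : ∃ D', D' = T' - 1 - c' := ⟨_, rfl⟩
  have hd1 : 1 ≤ d := by omega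
  have hM12 : 12 ≤ M := by omega
  have hD'1 : 1 ≤ D' := by
    by_contra hcon
    have h0 : c' = T' - 1 := by omega
    rw [h0] at e3
    have h1 : (T' - 1) * (T + 1 - c) = 0 := by linear_combination e3
    rcases mul_eq_zero.mp h1 with h | h <;> omega
  have k1 : c * (M * d + 2) * (M * D' + (M - 2)) =
      M * (T * T' * (d + 1) + c) - 2 * (T + 1) := by
    rw [hd, hD']
    linear_combination key
  have k2 : c * (M * d) * (M * D') ≤ M * (d * (2 * (T * T') + T)) := by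
    have h2 : 0 ≤ M * d := mul_nonneg (by omega) (by omega)
    have h3 : 0 ≤ M * D' := mul_nonneg (by omega) (by omega)
    have h1 : c * (M * d) * (M * D') ≤ c * (M * d + 2) * (M * D' + (M - 2)) := by
      apply mul_le_mul
      · exact mul_le_mul_of_nonneg_left (by omega) (by omega)
      · omega
      · exact h3
      · exact mul_nonneg (by omega) (by omega)
    have hTT : 0 ≤ T * T' := mul_nonneg (by omega) (by omega)
    have h4 : T * T' * (d + 1) + c ≤ d * (2 * (T * T') + T) := by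
      have h5 : 0 ≤ (T * T') * (d - 1) := mul_nonneg hTT (by omega)
      have h6 : T ≤ d * T := by nlinarith
      nlinarith
    have h7 : M * (T * T' * (d + 1) + c) ≤ M * (d * (2 * (T * T') + T)) :=
      mul_le_mul_of_nonneg_left h4 (by omega)
    linarith
  have k3 : c * (M * D') ≤ 2 * (T * T') + T := by
    have h1 : (M * d) * (c * (M * D')) ≤ (M * d) * (2 * (T * T') + T) := by
      have e6 : (M * d) * (c * (M * D')) = c * (M * d) * (M * D') := by ring
      have e7 : (M * d) * (2 * (T * T') + T) = M * (d * (2 * (T * T') + T)) := by ring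
      rw [e6, e7]
      exact k2
    exact le_of_mul_le_mul_left h1 (by positivity)
  have hcD : 0 ≤ c * D' := mul_nonneg (by omega) (by omega)
  have k4 : 4 * T' * (c * D') ≤ T * (2 * T' + 1) := by
    have h1 : (4 * T') * (c * D') ≤ M * (c * D') := mul_le_mul_of_nonneg_right hM' hcD
    nlinarith
  have k5 : 4 * T' * (c' * D') ≤ (2 * T' + 1) * (T' - 1) := by
    have h1 : 4 * T' * (c * D') * (T' - 1) ≤ T * (2 * T' + 1) * (T' - 1) :=
      mul_le_mul_of_nonneg_right k4 (by omega)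
    have h2 : 4 * T' * (c * D') * (T' - 1) = (T + 1) * (4 * T' * (c' * D')) := by
      linear_combination (-4 * T' * D') * e3
    have h3 : T * (2 * T' + 1) * (T' - 1) ≤ (T + 1) * ((2 * T' + 1) * (T' - 1)) := by
      have : 0 ≤ (2 * T' + 1) * (T' - 1) := mul_nonneg (by omega) (by omega)
      nlinarith
    rw [h2] at h1
    exact le_of_mul_le_mul_left (h1.trans h3) (by omega)
  have hc4 : 4 ≤ c' := hg.trans (Int.le_of_dvd (by omega) hg1)
  have hD4 : 4 ≤ D' := by
    refine hg.trans (Int.le_of_dvd (by omega) ?_)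
    rw [hD']
    exact dvd_sub hg2 hg1
  have k6 : 2 * (T' - 1) ≤ c' * D' := by
    have h1 : 4 ≤ (c' - 2) * (D' - 2) := by nlinarith
    have h2 : c' + D' = T' - 1 := by omega
    nlinarith
  have k7 : 4 * T' * (2 * (T' - 1)) ≤ (2 * T' + 1) * (T' - 1) :=
    (mul_le_mul_of_nonneg_left k6 (by omega)).trans k5
  nlinarith

end Pool.Agent.DSP
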