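import Pool.Agent.DS.Local
import Pool.Agent.DSP.Arith

/-!
# The local data at one prime
-/

set_option autoImplicit false

namespace Pool.Agent.DSP

open Finset Pool.Agent.DS

/-- The case of odd order, normalised by complementation: all data. -/
theorem local_data {H P : Type*} [AddCommGroup H] [Fintype H] [AddCommGroup P] [Fintype P]
    {p c s r : ℕ} (hp : p.Prime) (hp2 : p ≠ 2) (hc : 1 ≤ c) (hr : 1 ≤ r)
    (hH : Fintype.card H = 2 ^ c) (hP : Fintype.card P = p ^ s) (f : H × P → ℤ) (hf : Ind f)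
    (hF : Flat f (p ^ r)) (h0 : H) (hh0 : f (h0, 0) = 0) (hh : ∀ h, h ≠ h0 → f (h, 0) = 1)
    (hdiff : ∀ q q', (∑ l, f (q, l) - ∑ l, f (q', l)) ^ 2 =
      ((p ^ r : ℕ) : ℤ) ^ 2 * (f (q, 0) - f (q', 0)) ^ 2) (hne : ¬ (c = 2 ∧ s = 2 * r)) :
    ∃ (t : ℕ) (a δ : ℤ), s = t + r ∧ (δ = 1 ∨ δ = -1) ∧
      (∀ h, h ≠ h0 → ∑ l, f (h, l) = (p : ℤ) ^ r * a) ∧
      ∑ l, f (h0, l) = (p : ℤ) ^ r * (a + δ) ∧ ((p : ℤ) - 1) ∣ a - 1 ∧ ((p : ℤ) - 1) ∣ a + δ ∧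
      2 ^ c * a * ((p : ℤ) ^ t - a) + δ * ((p : ℤ) ^ t - 2 * a) = (p : ℤ) ^ (t + r) ∧
      (0 < a ∧ a < (p : ℤ) ^ t ∧ 1 ≤ t ∧ 2 * t ≤ r ∧ 4 * (p : ℤ) ^ t ≤ 2 ^ c ∧
      4 * p ^ (r - t) < 2 ^ c ∧ ∃ Y Z x y : ℕ, Y + Z = p ^ t ∧ x + y = 2 ^ (c - 1) ∧
        Y * x = Z * y + 1 ∧ Y * x + Z * y = p ^ r ∧ (p ≠ 3 → (p - 1) ∣ Z)) := by
  classical
  have hp1 : 1 < p := hp.one_lt
  have hpZ : (1 : ℤ) < p := by exact_mod_cast hp1
  have hpodd : Odd p := hp.odd_of_ne_two hp2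
  have hprpos : (0 : ℤ) < (p : ℤ) ^ r := by positivity
  obtain ⟨h1, hh1⟩ := Fintype.exists_ne_of_one_lt_card
    (show 1 < Fintype.card H by rw [hH]; exact Nat.one_lt_two_pow (by omega)) h0
  set F : H → ℤ := fun h => ∑ l, f (h, l) with hFdef
  have hFn : ∀ h, 0 ≤ F h := fun h => Finset.sum_nonneg fun l _ => by
    rcases hf (h, l) with h | h <;> rw [h]
    norm_num
  have hFl : ∀ h, F h ≤ (p : ℤ) ^ s := by
    intro h
    have : F h ≤ ∑ _l : P, (1 : ℤ) := Finset.sum_le_sum fun l _ => by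
      rcases hf (h, l) with h | h <;> rw [h]
      norm_num
    simpa [hP] using this
  set κ : ℤ := F h1 with hκ
  have hFh : ∀ h, h ≠ h0 → F h = κ := by
    intro h hne
    have := hdiff h h1
    rw [hh h hne, hh h1 hh1] at this
    have h2 : (F h - κ) ^ 2 = 0 := by
      rw [hκ, hFdef]
      simpa using this
    have h3 := pow_eq_zero_iff (two_ne_zero) |>.mp h2
    linarith
  have hF0 : (F h0 - κ) ^ 2 = ((p : ℤ) ^ r) ^ 2 := by
    have := hdiff h0 h1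
    rw [hh0, hh h1 hh1] at this
    rw [hκ, hFdef]
    simpa using this
  have hrs : r ≤ s := le_of_sub_sq hp1 (hFn h0) (hFl h0) (hFn h1) (hFl h1) hF0
  obtain ⟨t, ht⟩ : ∃ t, s = t + r := ⟨s - r, by omega⟩
  obtain ⟨δ, hδ, hδ2⟩ : ∃ δ : ℤ, (δ = 1 ∨ δ = -1) ∧ F h0 = κ + δ * (p : ℤ) ^ r := by
    rcases sq_eq_sq_iff_eq_or_eq_neg.mp hF0 with h2 | h2
    · exact ⟨1, Or.inl rfl, by linarith⟩
    · exact ⟨-1, Or.inr rfl, by linarith⟩
  -- the size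
  have hk : ∑ x, f x = 2 ^ c * κ + δ * (p : ℤ) ^ r := by
    rw [Fintype.sum_prod_type]
    change ∑ h, F h = _
    rw [← Finset.add_sum_erase _ _ (Finset.mem_univ h0), hδ2,
      Finset.sum_congr rfl fun h hne => hFh h (Finset.ne_of_mem_erase hne), Finset.sum_const,
      Finset.card_erase_of_mem (Finset.mem_univ _), Finset.card_univ, hH, nsmul_eq_mul]
    have : 1 ≤ 2 ^ c := Nat.one_le_two_pow
    push_cast [Nat.cast_sub this]
    ring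
  have hV := hF.V_eq
  rw [Ind.V_eq hf, hk, Fintype.card_prod, hH, hP] at hV
  push_cast at hV
  have hδδ : δ * δ = 1 := by rcases hδ with h | h <;> rw [h] <;> norm_num
  -- divisibility of `κ`
  obtain ⟨c', hc'⟩ : ∃ c', c = c' + 1 := ⟨c - 1, by omega⟩
  have hdiv : (p : ℤ) ^ r ∣ κ := by
    have h2 : (2 ^ c * (p : ℤ) ^ s - 2 * (2 ^ c * κ + δ * (p : ℤ) ^ r)) ^ 2 =
        (2 * (p : ℤ) ^ r) ^ 2 * ((2 ^ c' * (p : ℤ) ^ t) ^ 2 - 2 ^ c * (p : ℤ) ^ s + 1) := by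
      have h3 : (2 : ℤ) ^ c * (p : ℤ) ^ s = 2 * (p : ℤ) ^ r * (2 ^ c' * (p : ℤ) ^ t) := by
        rw [hc', ht]
        ring
      have h4 : (2 ^ c * (p : ℤ) ^ s) ^ 2 = (2 * (p : ℤ) ^ r) ^ 2 * (2 ^ c' * (p : ℤ) ^ t) ^ 2 := by
        rw [h3]
        ring
      linear_combination h4 - 4 * hV
    have h5 : 2 * (p : ℤ) ^ r ∣ 2 ^ c * (p : ℤ) ^ s - 2 * (2 ^ c * κ + δ * (p : ℤ) ^ r) :=
      (Int.pow_dvd_pow_iff two_ne_zero).mp ⟨_, h2⟩
    have h6 : (p : ℤ) ^ r ∣ 2 ^ (c + 1) * κ := by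
      obtain ⟨z, hz⟩ := h5
      refine ⟨2 ^ c * (p : ℤ) ^ t - 2 * δ - 2 * z, ?_⟩
      have h7 : (p : ℤ) ^ s = (p : ℤ) ^ t * (p : ℤ) ^ r := by rw [ht, pow_add]
      rw [h7] at hz
      rw [pow_succ]
      linear_combination -hz
    have h7 : IsCoprime ((p : ℤ) ^ r) (2 ^ (c + 1)) := by
      apply IsCoprime.pow
      have : IsCoprime (p : ℤ) ((2 : ℕ) : ℤ) :=
        Nat.isCoprime_iff_coprime.mpr (Nat.coprime_two_right.mpr hpodd)
      exact_mod_cast this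
    exact h7.dvd_of_dvd_mul_left h6
  obtain ⟨a, ha⟩ := hdiv
  have hps : (p : ℤ) ^ s = (p : ℤ) ^ r * (p : ℤ) ^ t := by rw [ht, pow_add]; ring
  have ha0 : 0 ≤ a := by
    have := hFn h1
    rw [← hκ, ha] at this
    exact nonneg_of_mul_nonneg_right this hprpos
  have ha1 : a ≤ (p : ℤ) ^ t := by
    have := hFl h1
    rw [← hκ, ha, hps] at this
    exact le_of_mul_le_mul_left this hprpos
  have ha2 : 0 ≤ a + δ := by
    have := hFn h0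
    rw [hδ2, ha, show (p : ℤ) ^ r * a + δ * (p : ℤ) ^ r = (p : ℤ) ^ r * (a + δ) by ring] at this
    exact nonneg_of_mul_nonneg_right this hprpos
  have ha3 : a + δ ≤ (p : ℤ) ^ t := by
    have := hFl h0
    rw [hδ2, ha, hps, show (p : ℤ) ^ r * a + δ * (p : ℤ) ^ r = (p : ℤ) ^ r * (a + δ) by ring] at this
    exact le_of_mul_le_mul_left this hprpos
  -- the equation
  have hE : 2 ^ c * a * ((p : ℤ) ^ t - a) + δ * ((p : ℤ) ^ t - 2 * a) = (p : ℤ) ^ (t + r) := by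
    have h2 : ((p : ℤ) ^ r) ^ 2 * 2 ^ c * (2 ^ c * a * ((p : ℤ) ^ t - a) +
        δ * ((p : ℤ) ^ t - 2 * a)) = ((p : ℤ) ^ r) ^ 2 * 2 ^ c * (p : ℤ) ^ (t + r) := by
      rw [ha, hps] at hV
      rw [pow_add]
      linear_combination hV + ((p : ℤ) ^ r) ^ 2 * hδδ
    exact mul_left_cancel₀ (by positivity) h2
  -- the congruences
  have hcopH : (Fintype.card H).Coprime p := by
    rw [hH]
    exact Nat.Coprime.pow_left _ (Nat.coprime_two_left.mpr hpodd)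
  have hpr : ((p : ℤ) - 1) ∣ (p : ℤ) ^ r - 1 := by
    have := sub_dvd_pow_sub_pow (p : ℤ) 1 r
    simpa using this
  have hcong1 : ((p : ℤ) - 1) ∣ a - 1 := by
    have h2 := cong2 hp hcopH hP hF h1
    rw [hh h1 hh1] at h2
    change ((p : ℤ) - 1) ∣ κ - 1 at h2
    rw [ha] at h2
    have h3 : a - 1 = ((p : ℤ) ^ r * a - 1) - a * ((p : ℤ) ^ r - 1) := by ring
    rw [h3]
    exact dvd_sub h2 (dvd_mul_of_dvd_right hpr _)
  have hcong2 : ((p : ℤ) - 1) ∣ a + δ := by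
    have h2 := cong2 hp hcopH hP hF h0
    rw [hh0] at h2
    change ((p : ℤ) - 1) ∣ F h0 - 0 at h2
    rw [hδ2, ha] at h2
    have h3 : a + δ = ((p : ℤ) ^ r * a + δ * (p : ℤ) ^ r - 0) - (a + δ) * ((p : ℤ) ^ r - 1) := by
      ring
    rw [h3]
    exact dvd_sub h2 (dvd_mul_of_dvd_right hpr _)
  refine ⟨t, a, δ, ht, hδ, fun h hne' => ?_, ?_, hcong1, hcong2, hE, ?_⟩
  · exact (hFh h hne').trans ha
  · rw [mul_add, ← ha, mul_comm ((p : ℤ) ^ r) δ]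
    exact hδ2
  · exact local_arith3 hp hp2 hc hr a δ hδ ha0 ha1 ha2 ha3 hcong1 hcong2 hE
      (fun h => hne ⟨h.1, by omega⟩)

end Pool.Agent.DSP
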