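import Pool.Agent.DS.Split
import Pool.Agent.DSP.LData

/-!
# The structure of the group: its exponent divides `2 p ^ t`
-/

set_option autoImplicit false

namespace Pool.Agent.DSP

open Finset Pool.Agent.DS

universe u

theorem geom {ζ : ℂ} {n : ℕ} (h : ζ ^ n = 1) :
    ∑ t ∈ range n, ζ ^ t = if ζ = 1 then (n : ℂ) else 0 := by
  by_cases h1 : ζ = 1
  · simp [h1]
  · rw [if_neg h1]
    have h2 := geom_sum_mul ζ n
    rw [h, sub_self] at h2
    exact (mul_eq_zero.mp h2).resolve_right (sub_ne_zero.mpr h1)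

theorem sum_split {p M : ℕ} (hp : p.Prime) (F : ℕ → ℂ) :
    ∑ t ∈ range (p * M), F t =
      ∑ t ∈ (range (p * M)).filter (fun t => t.Coprime p), F t + ∑ t ∈ range M, F (p * t) := by
  classical
  rw [← Finset.sum_filter_add_sum_filter_not (range (p * M)) (fun t => t.Coprime p)]
  congr 1
  have h1 : (range (p * M)).filter (fun t => ¬ t.Coprime p) = (range M).image (fun t => p * t) := by
    ext t
    simp only [mem_filter, mem_range, mem_image]
    constructor
    · rintro ⟨h1, h2⟩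
      have h3 : p ∣ t := by
        by_contra h4
        exact h2 ((Nat.Prime.coprime_iff_not_dvd hp).mpr h4).symm
      obtain ⟨u, rfl⟩ := h3
      exact ⟨u, Nat.lt_of_mul_lt_mul_left h1, rfl⟩
    · rintro ⟨u, hu, rfl⟩
      refine ⟨Nat.mul_lt_mul_of_pos_left hu hp.pos, fun h => ?_⟩
      have h2 := Nat.dvd_gcd (dvd_mul_right p u) (dvd_refl p)
      rw [h] at h2
      exact hp.one_lt.ne' (Nat.dvd_one.mp h2)
  rw [h1, Finset.sum_image]
  intro a _ b _ hab
  exact Nat.eq_of_mul_eq_mul_left hp.pos hab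

variable {P : Type*} [AddCommGroup P] [Fintype P]

theorem ft_unit {p s : ℕ} (hP : Fintype.card P = p ^ s) (g : P → ℤ)
    (hg : ∀ t : ℕ, t.Coprime p → ∀ y, g (t • y) = g y) (χ : AddChar P ℂ) (t : ℕ)
    (ht : t.Coprime p) : ∑ y, (g y : ℂ) * χ y ^ t = ft g χ := by
  classical
  have hcop : (Nat.card P).Coprime t := by
    rw [Nat.card_eq_fintype_card, hP]
    exact ht.symm.pow_left s
  unfold ft
  rw [← Equiv.sum_comp (nsmulCoprime hcop) (fun y => (g y : ℂ) * χ y)]
  refine sum_congr rfl fun y _ => ?_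
  have he : nsmulCoprime hcop y = t • y := rfl
  rw [he, hg t ht, AddChar.map_nsmul_eq_pow]

theorem ft_formula {p s : ℕ} (hp : p.Prime) (hP : Fintype.card P = p ^ s) (hs : 1 ≤ s)
    (g : P → ℤ) (hg : ∀ t : ℕ, t.Coprime p → ∀ y, g (t • y) = g y) (χ : AddChar P ℂ) :
    (((p : ℤ) - 1 : ℤ) : ℂ) * ft g χ = (((p : ℤ) * (∑ y, if χ y = 1 then g y else 0) -
      ∑ y, if χ y ^ p = 1 then g y else 0 : ℤ) : ℂ) := by
  classical
  obtain ⟨s', rfl⟩ : ∃ s', s = s' + 1 := ⟨s - 1, by omega⟩
  have hM0 : ((p : ℂ) ^ s') ≠ 0 := by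
    have : (p : ℂ) ≠ 0 := by exact_mod_cast hp.ne_zero
    positivity
  have hone : ∀ y : P, χ y ^ (p ^ (s' + 1)) = 1 := by
    intro y
    rw [← AddChar.map_nsmul_eq_pow, ← hP, card_nsmul_eq_zero, AddChar.map_zero_eq_one]
  have hpM : p * p ^ s' = p ^ (s' + 1) := by rw [pow_succ]; ring
  -- all multipliers
  have e1 : ∑ t ∈ range (p * p ^ s'), ∑ y, (g y : ℂ) * χ y ^ t =
      (p : ℂ) ^ s' * (p * ((∑ y, if χ y = 1 then g y else 0 : ℤ) : ℂ)) := by
    rw [Finset.sum_comm]
    push_cast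
    rw [Finset.mul_sum, Finset.mul_sum]
    refine sum_congr rfl fun y _ => ?_
    rw [← Finset.mul_sum, geom (by rw [hpM]; exact hone y)]
    split_ifs
    · push_cast
      ring
    · simp
  have e2 : ∑ t ∈ range (p ^ s'), ∑ y, (g y : ℂ) * χ y ^ (p * t) =
      (p : ℂ) ^ s' * ((∑ y, if χ y ^ p = 1 then g y else 0 : ℤ) : ℂ) := by
    rw [Finset.sum_comm]
    push_cast
    rw [Finset.mul_sum]
    refine sum_congr rfl fun y _ => ?_
    simp only [pow_mul]
    rw [← Finset.mul_sum, geom (by rw [← pow_mul, hpM]; exact hone y)]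
    split_ifs
    · push_cast
      ring
    · simp
  have e3 : ∑ t ∈ (range (p * p ^ s')).filter (fun t => t.Coprime p),
      ∑ y, (g y : ℂ) * χ y ^ t =
      (((range (p * p ^ s')).filter (fun t => t.Coprime p)).card : ℂ) * ft g χ := by
    rw [Finset.sum_congr rfl fun t ht => ft_unit hP g hg χ t (Finset.mem_filter.mp ht).2,
      Finset.sum_const, nsmul_eq_mul]
  have e4 : (((range (p * p ^ s')).filter (fun t => t.Coprime p)).card : ℂ) =
      (p : ℂ) * p ^ s' - p ^ s' := by
    have h := sum_split (M := p ^ s') hp (fun _ => (1 : ℂ))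
    simp only [Finset.sum_const, Finset.card_range, nsmul_eq_mul, mul_one] at h
    push_cast at h
    rw [h]
    ring
  have h := sum_split (M := p ^ s') hp (fun t => ∑ y, (g y : ℂ) * χ y ^ t)
  rw [e1, e2, e3, e4] at h
  apply mul_left_cancel₀ hM0
  push_cast at h ⊢
  linear_combination -h

theorem ft_int_le {p s : ℕ} (hp : p.Prime) (hP : Fintype.card P = p ^ s) (hs : 1 ≤ s)
    (g : P → ℤ) (hg : ∀ t : ℕ, t.Coprime p → ∀ y, g (t • y) = g y)
    (h01 : ∀ y, g y = 0 ∨ g y = 1) (χ : AddChar P ℂ) :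
    ∃ z : ℤ, ft g χ = z ∧ z ≤ ((univ.filter (fun y => χ y = 1)).card : ℤ) := by
  classical
  have hp2 : (2 : ℤ) ≤ p := by exact_mod_cast hp.two_le
  obtain ⟨z, hz, hz2⟩ := int_of_isIntegral (isIntegral_ft g χ) (b := (p : ℤ) - 1) (by omega)
    (ft_formula hp hP hs g hg χ)
  refine ⟨z, hz, ?_⟩
  have h1 : (∑ y, if χ y = 1 then g y else 0) ≤ ∑ y, if χ y ^ p = 1 then g y else 0 := by
    refine Finset.sum_le_sum fun y _ => ?_
    by_cases h : χ y = 1
    · simp [h]
    · rw [if_neg h]
      split_ifs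
      · rcases h01 y with h | h <;> rw [h]
        norm_num
      · exact le_rfl
  have h2 : (∑ y, if χ y = 1 then g y else 0) ≤
      ((univ.filter (fun y => χ y = 1)).card : ℤ) := by
    rw [← Finset.sum_filter, Finset.card_eq_sum_ones]
    push_cast
    refine Finset.sum_le_sum fun y _ => ?_
    rcases h01 y with h | h <;> rw [h]
    norm_num
  have h3 : ((p : ℤ) - 1) * z ≤ ((p : ℤ) - 1) * (∑ y, if χ y = 1 then g y else 0) := by
    rw [hz2]
    linarith
  have h4 := le_of_mul_le_mul_left h3 (by omega)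
  exact h4.trans h2

theorem ft_int_abs {p s : ℕ} (hp : p.Prime) (hP : Fintype.card P = p ^ s) (hs : 1 ≤ s)
    (g : P → ℤ) (hg : ∀ t : ℕ, t.Coprime p → ∀ y, g (t • y) = g y)
    (h01 : ∀ y, g y = 0 ∨ g y = 1) (χ : AddChar P ℂ) (hχ : χ ≠ 0) :
    ∃ z : ℤ, ft g χ = z ∧ |z| ≤ ((univ.filter (fun y => χ y = 1)).card : ℤ) := by
  classical
  obtain ⟨z, hz, hz1⟩ := ft_int_le hp hP hs g hg h01 χ
  obtain ⟨z', hz', hz1'⟩ := ft_int_le hp hP hs (fun y => 1 - g y) (fun t ht y => by rw [hg t ht])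
    (fun y => by
      rcases h01 y with h | h
      · right
        rw [h]
        norm_num
      · left
        rw [h]
        norm_num) χ
  refine ⟨z, hz, ?_⟩
  have h1 : ft (fun g' => 1 - g g') χ = - ft g χ := by
    unfold ft
    push_cast
    simp only [sub_mul, one_mul, Finset.sum_sub_distrib]
    rw [AddChar.sum_eq_zero_iff_ne_zero.mpr hχ]
    ring
  rw [h1, hz] at hz'
  have h2 : -z = z' := by exact_mod_cast hz'
  rw [abs_le]
  constructor <;> omega

variable {H : Type*} [AddCommGroup H] [Fintype H]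

/-- An integer valued function on a `2`-group all whose Fourier coefficients are `N` or `-N`,
`N` odd, is concentrated at one element of order at most `2`. -/
theorem one_block {N : ℕ} (hN : 0 < N) (hcop : (Fintype.card H).Coprime N) (w : H → ℤ)
    (hw : ∀ α : AddChar H ℂ, ft w α = N ∨ ft w α = -N) :
    ∃ h1 : H, |w h1| = N ∧ (∀ h, h ≠ h1 → w h = 0) ∧ h1 + h1 = 0 := by
  classical
  have hNC : (N : ℂ) ≠ 0 := by exact_mod_cast hN.ne'
  have hNZ : (0 : ℤ) < N := by exact_mod_cast hN
  let e : AddChar H ℂ → ℤ := fun χ => if ft w χ = N then 1 else -1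
  have he : ∀ χ : AddChar H ℂ, ft w χ = (N : ℂ) * (e χ : ℂ) := by
    intro χ
    rcases hw χ with h1 | h1
    · simp [e, h1]
    · have : ¬ ft w χ = N := by
        rw [h1]
        intro h2
        have h3 : (N : ℂ) = 0 := by linear_combination (-1/2 : ℂ) * h2
        exact hNC h3
      simp [e, this, h1]
  have hdvd : ∀ h, (N : ℤ) ∣ w h := by
    intro h
    have h1 : (Fintype.card H : ℂ) * w h = (N : ℂ) * ∑ χ : AddChar H ℂ, (e χ : ℂ) * χ (-h) := by
      rw [ft_inv, Finset.mul_sum]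
      refine Finset.sum_congr rfl fun χ _ => ?_
      rw [he χ]
      ring
    have h2 : IsIntegral ℤ (∑ χ : AddChar H ℂ, (e χ : ℂ) * χ (-h)) := by
      apply IsIntegral.sum
      intro χ _
      exact (isIntegral_algebraMap (R := ℤ) (x := e χ)).mul (isIntegral_char χ _)
    obtain ⟨z, hz, hz2⟩ := int_of_isIntegral h2 (a := (Fintype.card H : ℤ) * w h)
      (b := (N : ℤ)) (by exact_mod_cast hN.ne') (by
        push_cast
        rw [← h1])
    have h3 : IsCoprime (N : ℤ) (Fintype.card H : ℤ) :=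
      Nat.isCoprime_iff_coprime.mpr hcop.symm
    exact h3.dvd_of_dvd_mul_left ⟨z, hz2.symm⟩
  choose u hu using hdvd
  have hpar := parseval w
  have h1 : ∀ χ : AddChar H ℂ, ‖ft w χ‖ ^ 2 = (N : ℝ) ^ 2 := by
    intro χ
    rcases hw χ with h | h <;> rw [h] <;> simp
  simp only [h1, Finset.sum_const, nsmul_eq_mul, Finset.card_univ] at hpar
  rw [AddChar.card_eq] at hpar
  have h2 : (Fintype.card H : ℤ) * ∑ g, w g ^ 2 = Fintype.card H * (N : ℤ) ^ 2 := by
    exact_mod_cast hpar
  have hc0 : (Fintype.card H : ℤ) ≠ 0 := by exact_mod_cast Fintype.card_ne_zero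
  have h3 := mul_left_cancel₀ hc0 h2
  have h4 : ∑ g, u g ^ 2 = 1 := by
    have h5 : (N : ℤ) ^ 2 * ∑ g, u g ^ 2 = (N : ℤ) ^ 2 * 1 := by
      have h6 : ∑ g, w g ^ 2 = (N : ℤ) ^ 2 * ∑ g, u g ^ 2 := by
        rw [Finset.mul_sum]
        refine Finset.sum_congr rfl fun g _ => ?_
        rw [hu g]
        ring
      rw [mul_one, ← h6, h3]
    exact mul_left_cancel₀ (by positivity) h5
  obtain ⟨h1', hne⟩ : ∃ h, u h ≠ 0 := by
    by_contra hcon
    push Not at hcon
    rw [Finset.sum_congr rfl fun g _ => by rw [hcon g]] at h4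
    simp at h4
  have h5 := Finset.add_sum_erase univ (fun g => u g ^ 2) (mem_univ h1')
  rw [h4] at h5
  have h6 : 1 ≤ u h1' ^ 2 := by
    have : 0 < u h1' ^ 2 := by positivity
    omega
  have h7 : 0 ≤ ∑ x ∈ univ.erase h1', u x ^ 2 := Finset.sum_nonneg fun _ _ => sq_nonneg _
  have h8 : ∑ x ∈ univ.erase h1', u x ^ 2 = 0 := by omega
  have h9 : u h1' ^ 2 = 1 := by omega
  have hz : ∀ h, h ≠ h1' → w h = 0 := by
    intro h hh
    have := (Finset.sum_eq_zero_iff_of_nonneg (fun _ _ => sq_nonneg _)).mp h8 h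
      (Finset.mem_erase.mpr ⟨hh, mem_univ _⟩)
    rw [hu h, pow_eq_zero_iff (two_ne_zero) |>.mp this, mul_zero]
  have habs : |w h1'| = N := by
    have h10 : |u h1'| = 1 := by
      apply (pow_eq_one_iff_of_nonneg (abs_nonneg _) two_ne_zero).mp
      rw [sq_abs, h9]
    rw [hu h1', abs_mul, h10, mul_one]
    exact abs_of_pos hNZ
  refine ⟨h1', habs, hz, ?_⟩
  by_contra hcon
  obtain ⟨α, hα⟩ := AddChar.exists_apply_ne_zero.mpr hcon
  apply hα
  have h10 : ft w α = w h1' * α h1' := by
    unfold ft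
    rw [Finset.sum_eq_single h1']
    · intro b _ hb
      rw [hz b hb]
      simp
    · intro h
      exact absurd (mem_univ _) h
  have h11 : (w h1' : ℂ) ^ 2 = (N : ℂ) ^ 2 := by
    have : w h1' ^ 2 = (N : ℤ) ^ 2 := by rw [← habs, sq_abs]
    exact_mod_cast this
  have h12 : (ft w α) ^ 2 = (N : ℂ) ^ 2 := by
    rcases hw α with h | h <;> rw [h]
    ring
  rw [h10, mul_pow, h11] at h12
  rw [AddChar.map_add_eq_mul, ← pow_two]
  have h13 : (N : ℂ) ^ 2 ≠ 0 := pow_ne_zero _ hNC
  exact mul_left_cancel₀ h13 (by rw [h12, mul_one])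

/-- Invariance of the blocks. -/
theorem inv_block {p s N : ℕ} (hH : (Fintype.card H).Coprime p)
    (hP : Fintype.card P = p ^ s) {f : H × P → ℤ} (hF : Flat f N) (h : H) (t : ℕ)
    (ht : t.Coprime p) (y : P) : f (h, t • y) = f (h, y) := by
  obtain ⟨t', ht1, ht2⟩ := Nat.chineseRemainder (hH.pow_right s) 1 t
  have hcop : t'.Coprime (Fintype.card (H × P)) := by
    rw [Fintype.card_prod, hP]
    apply Nat.Coprime.mul_right
    · have h1 : Nat.gcd t' (Fintype.card H) = Nat.gcd 1 (Fintype.card H) := ht1.gcd_eq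
      rw [Nat.gcd_one_left] at h1
      exact h1
    · have h1 : Nat.gcd t' (p ^ s) = Nat.gcd t (p ^ s) := ht2.gcd_eq
      rw [ht.pow_right s] at h1
      exact h1
  have h1 := hF.rat t' hcop (h, y)
  have e1 : t' • h = h := by
    have h2 : addOrderOf h ∣ Fintype.card H := addOrderOf_dvd_card
    rw [← mod_addOrderOf_nsmul h t', show t' % addOrderOf h = 1 % addOrderOf h from
      ht1.of_dvd h2, mod_addOrderOf_nsmul, one_nsmul]
  have e2 : t' • y = t • y := by
    have h2 : addOrderOf y ∣ p ^ s := by rw [← hP]; exact addOrderOf_dvd_card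
    rw [← mod_addOrderOf_nsmul y t', show t' % addOrderOf y = t % addOrderOf y from
      ht2.of_dvd h2, mod_addOrderOf_nsmul]
  rw [Prod.smul_mk, e1, e2] at h1
  exact h1

/-- A nontrivial character of `P` is nonzero at exactly one block. -/
theorem char_block {p c s r : ℕ} (hp : p.Prime) (hp2 : p ≠ 2) (hs : 1 ≤ s)
    (hH : Fintype.card H = 2 ^ c) (hP : Fintype.card P = p ^ s) (f : H × P → ℤ) (hf : Ind f)
    (hF : Flat f (p ^ r)) (χ : AddChar P ℂ) (hχ : χ ≠ 0) :
    ∃ h1 : H, h1 + h1 = 0 ∧ (∀ h, h ≠ h1 → ft (fun y => f (h, y)) χ = 0) ∧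
      p ^ r ≤ (univ.filter (fun y => χ y = 1)).card := by
  classical
  have c2p : (2 : ℕ).Coprime p := Nat.coprime_two_left.mpr (hp.odd_of_ne_two hp2)
  have hHp : (Fintype.card H).Coprime p := by
    rw [hH]
    exact c2p.pow_left c
  have hz : ∀ h : H, ∃ z : ℤ, ft (fun y => f (h, y)) χ = z ∧
      |z| ≤ ((univ.filter (fun y => χ y = 1)).card : ℤ) := fun h =>
    ft_int_abs hp hP hs (fun y => f (h, y)) (fun t ht y => inv_block hHp hP hF h t ht y)
      (fun y => hf (h, y)) χ hχ
  choose w hw hw' using hz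
  have hft : ∀ α : AddChar H ℂ, ft w α = ft f (pchar α χ) := by
    intro α
    unfold ft
    rw [Fintype.sum_prod_type]
    refine Finset.sum_congr rfl fun h _ => ?_
    rw [← hw h]
    unfold ft
    rw [Finset.sum_mul]
    refine Finset.sum_congr rfl fun y _ => ?_
    rw [pchar_apply]
    ring
  obtain ⟨h1, habs, h0, h2⟩ := one_block (N := p ^ r) (pow_pos hp.pos r) (hHp.pow_right r) w
    (fun α => by
      rw [hft α]
      exact hF _ (pchar_ne_right α hχ))
  refine ⟨h1, h2, fun h hne => by rw [hw h, h0 h hne]; simp, ?_⟩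
  have := hw' h1
  rw [habs] at this
  exact_mod_cast this

theorem exp_P {p s r : ℕ} (hp : p.Prime) (hP : Fintype.card P = p ^ s)
    (h : ∀ χ : AddChar P ℂ, χ ≠ 0 → p ^ r ≤ (univ.filter (fun y => χ y = 1)).card) (hrs : r ≤ s)
    (y : P) : p ^ (s - r) • y = 0 := by
  classical
  by_contra hcon
  obtain ⟨χ, hχ⟩ := AddChar.exists_apply_ne_zero.mpr hcon
  have hχ0 : χ ≠ 0 := by
    rintro rfl
    exact hχ rfl
  apply hχ
  let K : AddSubgroup P :=
    { carrier := {y | χ y = 1}
      zero_mem' := AddChar.map_zero_eq_one χ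
      add_mem' := fun {a b} ha hb => by
        change χ (a + b) = 1
        rw [AddChar.map_add_eq_mul, show χ a = 1 from ha, show χ b = 1 from hb, one_mul]
      neg_mem' := fun {a} ha => by
        change χ (-a) = 1
        rw [AddChar.map_neg_eq_inv, show χ a = 1 from ha, inv_one] }
  have hKc : Nat.card K = (univ.filter (fun y => χ y = 1)).card := by
    have : Nat.card K = Nat.card {y : P // χ y = 1} := rfl
    rw [this, Nat.card_eq_fintype_card, Fintype.card_subtype]
  have h1 := K.card_mul_index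
  rw [Nat.card_eq_fintype_card (α := P), hP] at h1
  obtain ⟨i, hi, hi2⟩ := (Nat.dvd_prime_pow hp).mp (Dvd.intro_left _ h1)
  have h2 : K.index • y ∈ K := K.nsmul_index_mem y
  have h3 : i ≤ s - r := by
    have h4 := h χ hχ0
    rw [← hKc] at h4
    rw [hi2] at h1
    have h5 : p ^ r * p ^ i ≤ p ^ s := by
      rw [← h1]
      exact Nat.mul_le_mul_right _ h4
    rw [← pow_add, Nat.pow_le_pow_iff_right hp.one_lt] at h5
    omega
  rw [hi2] at h2
  have h4 : χ (p ^ i • y) = 1 := h2
  have h5 : p ^ (s - r) • y = p ^ (s - r - i) • p ^ i • y := by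
    rw [← mul_smul, ← pow_add]
    congr 2
    omega
  rw [h5, AddChar.map_nsmul_eq_pow, h4, one_pow]

theorem exp_core {p c s r : ℕ} (hp : p.Prime) (hp2 : p ≠ 2) (hc : 3 ≤ c) (hr : 1 ≤ r)
    (hH : Fintype.card H = 2 ^ c) (hP : Fintype.card P = p ^ s) (f : H × P → ℤ) (hf : Ind f)
    (hF : Flat f (p ^ r)) (h0 : H) (hh0 : f (h0, 0) = 0) (hh : ∀ h, h ≠ h0 → f (h, 0) = 1)
    (hdiff : ∀ q q', (∑ l, f (q, l) - ∑ l, f (q', l)) ^ 2 =
      ((p ^ r : ℕ) : ℤ) ^ 2 * (f (q, 0) - f (q', 0)) ^ 2) (x : H × P) :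
    (2 * p ^ (s - r)) • x = 0 := by
  classical
  obtain ⟨t, a, δ, hst, -, hsum, -, -, -, -, ha0, hat, -⟩ :=
    local_data hp hp2 (by omega) hr hH hP f hf hF h0 hh0 hh hdiff (fun h => by omega)
  have hs : 1 ≤ s := by omega
  have hne : ∀ h : H, h ≠ h0 → h + h = 0 := by
    intro h hne
    have h1 : ∃ χ : AddChar P ℂ, χ ≠ 0 ∧ ft (fun y => f (h, y)) χ ≠ 0 := by
      by_contra hcon
      push Not at hcon
      have h2 : ∀ y, f (h, y) = 1 := by
        intro y
        rw [← hh h hne]
        exact const_of_ft hcon y 0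
      have h3 := hsum h hne
      rw [Finset.sum_congr rfl fun y _ => h2 y, Finset.sum_const, Finset.card_univ, hP, hst,
        nsmul_eq_mul, mul_one] at h3
      push_cast at h3
      rw [pow_add, mul_comm] at h3
      have hpr : (0 : ℤ) < (p : ℤ) ^ r := by
        have : (0 : ℤ) < p := by exact_mod_cast hp.pos
        positivity
      have h4 := mul_left_cancel₀ hpr.ne' h3
      omega
    obtain ⟨χ, hχ, hχ2⟩ := h1
    obtain ⟨h1, h2, h3, -⟩ := char_block hp hp2 hs hH hP f hf hF χ hχ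
    have h4 : h = h1 := by
      by_contra h5
      exact hχ2 (h3 h h5)
    rw [h4]
    exact h2
  have hall : ∀ h : H, h + h = 0 := by
    intro h
    by_cases hh1 : h = h0
    · obtain ⟨h', hh'⟩ : ∃ h' : H, h' ∉ ({0, h} : Finset H) := by
        by_contra hcon
        push Not at hcon
        have h1 : (univ : Finset H) ⊆ {0, h} := fun y _ => hcon y
        have h2 := Finset.card_le_card h1
        rw [Finset.card_univ, hH] at h2
        have h3 : 2 ^ 3 ≤ 2 ^ c := Nat.pow_le_pow_right (by norm_num) hc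
        have h4 : ({0, h} : Finset H).card ≤ 2 := Finset.card_le_two
        omega
      rw [Finset.mem_insert, Finset.mem_singleton, not_or] at hh'
      have e1 := hne h' (by rw [← hh1]; exact hh'.2)
      have e2 := hne (h - h') (by
        rw [← hh1]
        intro h5
        apply hh'.1
        have : h - (h - h') = 0 := by rw [h5, sub_self]
        rwa [sub_sub_cancel] at this)
      calc h + h = ((h - h') + (h - h')) + (h' + h') := by abel
        _ = 0 := by rw [e1, e2, add_zero]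
    · exact hne h hh1
  have hPz : ∀ y : P, p ^ (s - r) • y = 0 :=
    exp_P hp hP (fun χ hχ => (char_block hp hp2 hs hH hP f hf hF χ hχ).choose_spec.2.2) (by omega)
  ext
  · change (2 * p ^ (s - r)) • x.1 = 0
    rw [mul_comm, mul_smul, two_nsmul, hall, smul_zero]
  · change (2 * p ^ (s - r)) • x.2 = 0
    rw [mul_smul, hPz, smul_zero]

theorem exp_thm {G : Type u} [AddCommGroup G] [Fintype G] {p c s r : ℕ} (hp : p.Prime)
    (hp2 : p ≠ 2) (hc : 3 ≤ c) (hr : 1 ≤ r) (hG : Fintype.card G = 2 ^ c * p ^ s) (g : G → ℤ)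
    (hg : Ind g) (hgF : Flat g (p ^ r)) (x : G) : (2 * p ^ (s - r)) • x = 0 := by
  classical
  have hpodd : Odd p := hp.odd_of_ne_two hp2
  have c2p : (2 : ℕ).Coprime p := Nat.coprime_two_left.mpr hpodd
  obtain ⟨H, P, _, _, _, _, hH, hP, ⟨e⟩⟩ := split (G := G) (2 ^ c) (p ^ s) (c2p.pow c s) hG
  have hodd : Odd (Fintype.card P) := by
    rw [hP]
    exact hpodd.pow
  have hcop : (Fintype.card H).Coprime (Fintype.card P) := by
    rw [hH, hP]
    exact c2p.pow c s
  have hgE : Flat (fun x => g (e x)) (p ^ r) := hgF.comp_equiv e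
  obtain ⟨h0flat, hdiff⟩ := sub (fun x => g (e x)) (fun x => hg _) hodd hcop (p ^ r) 1
    (by rw [hH]; exact c2p.symm.pow r c) (Nat.coprime_one_left _) (pow_pos hp.pos r)
    (by rwa [mul_one])
  have key : ∀ y : H × P, (2 * p ^ (s - r)) • y = 0 := by
    rcases two_group (by omega) hH (fun q => g (e (q, 0))) (fun q => hg _) one_pos h0flat with
      ⟨-, h0, hh0⟩ | ⟨a, ha, hNa, -⟩
    · rcases hg (e (h0, 0)) with h1 | h1
      · exact exp_core hp hp2 hc hr hH hP (fun x => g (e x)) (fun x => hg _) hgE h0 h1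
          (fun h hne => by
            have h2 : g (e (h, 0)) = 1 - g (e (h0, 0)) := hh0 h hne
            rw [h2, h1]
            norm_num) hdiff
      · exact exp_core hp hp2 hc hr hH hP (fun x => 1 - g (e x)) (fun x => by
              rcases hg (e x) with h2 | h2
              · right
                change 1 - g (e x) = 1
                rw [h2]
                norm_num
              · left
                change 1 - g (e x) = 0
                rw [h2]
                norm_num) hgE.compl h0 (by rw [h1]; norm_num)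
            (fun h hne => by
              have h2 : g (e (h, 0)) = 1 - g (e (h0, 0)) := hh0 h hne
              rw [h2, h1]
              norm_num) (fun q q' => by
              have h3 := hdiff q q'
              simp only [Finset.sum_sub_distrib]
              have h4 : ∀ A B C : ℤ, (A - B - (A - C)) ^ 2 = (B - C) ^ 2 := fun A B C => by ring
              rw [h4, h3]
              ring)
    · have h2 : 2 ^ 1 ≤ 2 ^ a := Nat.pow_le_pow_right (by norm_num) ha
      omega
  have h1 := key (e.symm x)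
  have h2 : e ((2 * p ^ (s - r)) • e.symm x) = (2 * p ^ (s - r)) • x := by
    rw [map_nsmul, AddEquiv.apply_symm_apply]
  rw [← h2, h1, map_zero]

end Pool.Agent.DSP
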