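import Pool.Agent.DS.Main

/-!
# The case `v = 4 n`: the exponents of the primes `p > 3` in `n` are multiples of four
-/

set_option autoImplicit false

namespace Pool.Agent.DSP

open Finset Pool.Agent.DS

universe u

theorem menon_even {H P : Type*} [AddCommGroup H] [Fintype H] [AddCommGroup P] [Fintype P]
    {p c s r B : ℕ} (hp : p.Prime) (hp3 : 3 < p) (hr : 1 ≤ r)
    (hH : Fintype.card H = 2 ^ c) (hP : Fintype.card P = p ^ s) (hB : B.Coprime p)
    (hB0 : 0 < B) (f : H × P → ℤ) (hf : Ind f) (hF : Flat f (p ^ r * B))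
    (h4 : 2 ^ c = 4 * B ^ 2) (h2 : s = 2 * r) : Even r := by
  classical
  have hp2 : p ≠ 2 := by omega
  have hpodd : Odd p := hp.odd_of_ne_two hp2
  have c2p : (2 : ℕ).Coprime p := Nat.coprime_two_left.mpr hpodd
  have hodd : Odd (Fintype.card P) := by
    rw [hP]
    exact hpodd.pow
  have hcop : (Fintype.card H).Coprime (Fintype.card P) := by
    rw [hH, hP]
    exact c2p.pow c s
  obtain ⟨h0flat, hdiff⟩ := sub f hf hodd hcop (p ^ r) B
    (by rw [hH]; exact c2p.symm.pow r c) (by rw [hP]; exact hB.pow_right s)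
    (pow_pos hp.pos r) hF
  have hBZ : (1 : ℤ) ≤ B := by exact_mod_cast hB0
  have h4Z : ((2 ^ c : ℕ) : ℤ) = 4 * (B : ℤ) ^ 2 := by exact_mod_cast h4
  -- sizes
  obtain ⟨k0, hk0⟩ : ∃ k0 : ℤ, k0 = ∑ q, f (q, 0) := ⟨_, rfl⟩
  obtain ⟨K, hK⟩ : ∃ K : ℤ, K = ∑ x, f x := ⟨_, rfl⟩
  obtain ⟨R, hR⟩ : ∃ R : ℤ, R = (p : ℤ) ^ r := ⟨_, rfl⟩
  have hRpos : 0 < R := by
    rw [hR]
    have : (0 : ℤ) < p := by exact_mod_cast hp.pos
    positivity
  have hRodd : Odd R := by
    rw [hR]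
    exact Odd.pow (by exact_mod_cast hpodd)
  have hV0 := h0flat.V_eq
  rw [Ind.V_eq (fun q => hf (q, 0)), ← hk0, hH, h4Z] at hV0
  have hV := hF.V_eq
  rw [Ind.V_eq hf, ← hK, Fintype.card_prod, hH, hP, h2] at hV
  push_cast at hV
  have h4Z' : (2 : ℤ) ^ c = 4 * (B : ℤ) ^ 2 := by exact_mod_cast h4
  have hps : (p : ℤ) ^ (2 * r) = R ^ 2 := by rw [hR, ← pow_mul, mul_comm]
  rw [h4Z', hps, ← hR] at hV
  have e0 : (k0 - 2 * (B : ℤ) ^ 2) ^ 2 = (B : ℤ) ^ 2 := by linear_combination -hV0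
  have e1 : (K - 2 * (B : ℤ) ^ 2 * R ^ 2) ^ 2 = (B * R) ^ 2 := by linear_combination -hV
  -- the values
  have hex0 : ∃ q, f (q, 0) = 0 := by
    by_contra hcon
    push Not at hcon
    have h1 : ∀ q, f (q, 0) = 1 := fun q => (hf (q, 0)).resolve_left (hcon q)
    have h3 : k0 = 4 * (B : ℤ) ^ 2 := by
      rw [hk0, Finset.sum_congr rfl fun q _ => h1 q, Finset.sum_const, Finset.card_univ, hH,
        nsmul_eq_mul, mul_one, h4Z]
    rw [h3] at e0
    have h5 : 4 * ((B : ℤ) ^ 2) ^ 2 = (B : ℤ) ^ 2 := by linear_combination e0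
    have h6 : 1 ≤ (B : ℤ) ^ 2 := by nlinarith
    nlinarith
  have hex1 : ∃ q, f (q, 0) = 1 := by
    by_contra hcon
    push Not at hcon
    have h1 : ∀ q, f (q, 0) = 0 := fun q => (hf (q, 0)).resolve_right (hcon q)
    have h3 : k0 = 0 := by
      rw [hk0]
      exact Finset.sum_eq_zero fun q _ => h1 q
    rw [h3] at e0
    have h5 : 4 * ((B : ℤ) ^ 2) ^ 2 = (B : ℤ) ^ 2 := by linear_combination e0
    have h6 : 1 ≤ (B : ℤ) ^ 2 := by nlinarith
    nlinarith
  obtain ⟨q0, hq0⟩ := hex0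
  obtain ⟨q1, hq1⟩ := hex1
  set F : H → ℤ := fun h => ∑ l, f (h, l) with hFdef
  obtain ⟨κ, hκ⟩ : ∃ κ : ℤ, κ = F q0 := ⟨_, rfl⟩
  have hd : ∀ q q', (F q - F q') ^ 2 = R ^ 2 * (f (q, 0) - f (q', 0)) ^ 2 := by
    intro q q'
    rw [hR]
    have := hdiff q q'
    push_cast at this
    exact this
  obtain ⟨δ, hδ, hδ2⟩ : ∃ δ : ℤ, (δ = 1 ∨ δ = -1) ∧ F q1 = κ + δ * R := by
    have h3 := hd q1 q0
    rw [hq0, hq1, ← hκ] at h3
    have h5 : (F q1 - κ) ^ 2 = R ^ 2 := by rw [h3]; ring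
    rcases sq_eq_sq_iff_eq_or_eq_neg.mp h5 with h6 | h6
    · exact ⟨1, Or.inl rfl, by linarith⟩
    · exact ⟨-1, Or.inr rfl, by linarith⟩
  have hval : ∀ q, F q = κ + δ * R * f (q, 0) := by
    intro q
    rcases hf (q, 0) with h | h
    · have h3 := hd q q0
      rw [hq0, h, ← hκ] at h3
      have h5 : (F q - κ) ^ 2 = 0 := by rw [h3]; ring
      have h6 := pow_eq_zero_iff (two_ne_zero) |>.mp h5
      rw [h]
      linarith
    · have h3 := hd q q1
      rw [hq1, h, hδ2] at h3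
      have h5 : (F q - (κ + δ * R)) ^ 2 = 0 := by rw [h3]; ring
      have h6 := pow_eq_zero_iff (two_ne_zero) |>.mp h5
      rw [h]
      linarith
  -- congruences
  have hcopH : (Fintype.card H).Coprime p := by
    rw [hH]
    exact c2p.pow_left c
  have hpr : ((p : ℤ) - 1) ∣ R - 1 := by
    rw [hR]
    have := sub_dvd_pow_sub_pow (p : ℤ) 1 r
    simpa using this
  have hc0 : ((p : ℤ) - 1) ∣ κ := by
    have h3 := cong2 hp hcopH hP hF q0
    rw [hq0] at h3
    change ((p : ℤ) - 1) ∣ F q0 - 0 at h3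
    rwa [sub_zero, ← hκ] at h3
  have hc1 : ((p : ℤ) - 1) ∣ κ + δ * R - 1 := by
    have h3 := cong2 hp hcopH hP hF q1
    rw [hq1] at h3
    change ((p : ℤ) - 1) ∣ F q1 - 1 at h3
    rwa [hδ2] at h3
  have hδ1 : δ = 1 := by
    rcases hδ with h | h
    · exact h
    · exfalso
      rw [h] at hc1
      have h5 : ((p : ℤ) - 1) ∣ 2 := by
        have h6 := dvd_sub (dvd_sub hc0 hc1) hpr
        have h7 : κ - (κ + -1 * R - 1) - (R - 1) = 2 := by ring
        rwa [h7] at h6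
      have h6 := Int.le_of_dvd (by norm_num) h5
      have : (3 : ℤ) < p := by exact_mod_cast hp3
      omega
  subst hδ1
  have hsum : K = 4 * (B : ℤ) ^ 2 * κ + R * k0 := by
    rw [hK, Fintype.sum_prod_type]
    change ∑ h, F h = _
    simp only [hval]
    rw [Finset.sum_add_distrib, Finset.sum_const, Finset.card_univ, hH, nsmul_eq_mul, h4Z,
      ← Finset.mul_sum, ← hk0]
    ring
  -- the two signs
  obtain ⟨e, he, hke⟩ : ∃ e : ℤ, (e = 1 ∨ e = -1) ∧ k0 = 2 * (B : ℤ) ^ 2 + e * B := by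
    rcases sq_eq_sq_iff_eq_or_eq_neg.mp e0 with h6 | h6
    · exact ⟨1, Or.inl rfl, by linarith⟩
    · exact ⟨-1, Or.inr rfl, by linarith⟩
  obtain ⟨e', he', hKe⟩ : ∃ e : ℤ, (e = 1 ∨ e = -1) ∧
      K = 2 * (B : ℤ) ^ 2 * R ^ 2 + e * (B * R) := by
    rcases sq_eq_sq_iff_eq_or_eq_neg.mp e1 with h6 | h6
    · exact ⟨1, Or.inl rfl, by linarith⟩
    · exact ⟨-1, Or.inr rfl, by linarith⟩
  have hmain : 4 * (B : ℤ) * κ = 2 * B * (R ^ 2 - R) + (e' - e) * R := by
    have hB' : (B : ℤ) ≠ 0 := by omega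
    apply mul_left_cancel₀ hB'
    rw [hke, hKe] at hsum
    linear_combination -hsum
  obtain ⟨j, hj⟩ := hRodd
  have hRR : R ^ 2 - R = 2 * (j * R) := by
    linear_combination (R) * hj
  have hee : e' = e := by
    rcases he with h | h <;> rcases he' with h' | h'
    · rw [h, h']
    · exfalso
      rw [h, h', hRR] at hmain
      have : 2 * (2 * ((B : ℤ) * κ)) = 2 * (2 * (B * (j * R)) - R) := by
        linear_combination hmain
      omega
    · exfalso
      rw [h, h', hRR] at hmain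
      have : 2 * (2 * ((B : ℤ) * κ)) = 2 * (2 * (B * (j * R)) + R) := by
        linear_combination hmain
      omega
    · rw [h, h']
  rw [hee, sub_self, zero_mul, add_zero, hRR] at hmain
  have hκ2 : κ = j * R := by
    have hB' : 4 * (B : ℤ) ≠ 0 := by omega
    apply mul_left_cancel₀ hB'
    linear_combination hmain
  -- `r` is even
  by_contra hcon
  rw [Nat.not_even_iff_odd] at hcon
  obtain ⟨i, hi⟩ := hc0
  have hgeom : ((p : ℤ) - 1) * ∑ l ∈ range r, (p : ℤ) ^ l = R - 1 := by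
    rw [mul_comm, hR]
    exact geom_sum_mul (p : ℤ) r
  have hSodd : Odd (∑ l ∈ range r, (p : ℤ) ^ l) := by
    rw [← Int.not_even_iff_odd, Int.even_iff]
    intro h5
    have h6 : (∑ l ∈ range r, (p : ℤ) ^ l) % 2 = (r : ℤ) % 2 := by
      have h7 : ∀ l ∈ range r, ((p : ℤ) ^ l) % 2 = 1 := by
        intro l _
        have h8 : Odd ((p : ℤ) ^ l) := Odd.pow (by exact_mod_cast hpodd)
        exact Int.odd_iff.mp h8
      rw [Finset.sum_int_mod, Finset.sum_congr rfl h7]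
      simp
    have h8 : (r : ℤ) % 2 = 1 := by
      have := Nat.odd_iff.mp hcon
      omega
    omega
  have h9 : 2 * i = (∑ l ∈ range r, (p : ℤ) ^ l) * R := by
    have hp1 : (p : ℤ) - 1 ≠ 0 := by
      have : (3 : ℤ) < p := by exact_mod_cast hp3
      omega
    apply mul_left_cancel₀ hp1
    have h10 : R - 1 = 2 * j := by omega
    linear_combination (-2) * hi + 2 * hκ2 - R * hgeom - R * h10
  have h10 : Odd ((∑ l ∈ range r, (p : ℤ) ^ l) * R) := hSodd.mul ⟨j, hj⟩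
  rw [← h9] at h10
  exact (Int.not_even_iff_odd.mpr h10) ⟨i, by ring⟩

end Pool.Agent.DSP
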