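import Pool.Agent.DSP.LData

/-!
# Two different odd primes are impossible
-/

set_option autoImplicit false

namespace Pool.Agent.DSP

open Finset Pool.Agent.DS

variable {H P R : Type*} [AddCommGroup H] [Fintype H] [AddCommGroup P] [Fintype P]
  [AddCommGroup R] [Fintype R]

/-- exchange of the second and the third factor -/
def exch (H P R : Type*) [AddCommGroup H] [AddCommGroup P] [AddCommGroup R] :
    (H × R) × P ≃+ (H × P) × R where
  toFun w := ((w.1.1, w.2), w.1.2)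
  invFun w := ((w.1.1, w.2), w.1.2)
  left_inv w := rfl
  right_inv w := rfl
  map_add' w w' := rfl

/-- association -/
def assoc (H P R : Type*) [AddCommGroup H] [AddCommGroup P] [AddCommGroup R] :
    H × (P × R) ≃+ (H × P) × R where
  toFun w := ((w.1, w.2.1), w.2.2)
  invFun w := (w.1.1, (w.1.2, w.2))
  left_inv w := rfl
  right_inv w := rfl
  map_add' w w' := rfl

/-- The projection to `H × P` is determined by the restriction. -/
theorem proj_val {Q L : Type*} [Fintype L] [Zero L] (f : Q × L → ℤ) (hf : Ind f) (X : ℤ) (m δ : ℤ)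
    (hdiff : ∀ x x', (∑ y, f (x, y) - ∑ y, f (x', y)) ^ 2 = X * (f (x, 0) - f (x', 0)) ^ 2)
    (x0 x1 : Q) (h0 : f (x0, 0) = 0) (h1 : f (x1, 0) = 1) (v0 : ∑ y, f (x0, y) = m + δ)
    (v1 : ∑ y, f (x1, y) = m) (x : Q) : ∑ y, f (x, y) = m + δ * (1 - f (x, 0)) := by
  rcases hf (x, 0) with h | h
  · have h2 := hdiff x x0
    rw [h, h0, v0] at h2
    have h3 : (∑ y, f (x, y) - (m + δ)) ^ 2 = 0 := by rw [h2]; ring
    have h4 := pow_eq_zero_iff (two_ne_zero) |>.mp h3
    rw [h]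
    linarith
  · have h2 := hdiff x x1
    rw [h, h1, v1] at h2
    have h3 : (∑ y, f (x, y) - m) ^ 2 = 0 := by rw [h2]; ring
    have h4 := pow_eq_zero_iff (two_ne_zero) |>.mp h3
    rw [h]
    linarith

theorem three_le_pow {p t : ℕ} (hp : 3 ≤ p) (ht : 1 ≤ t) : (3 : ℤ) ≤ (p : ℤ) ^ t := by
  calc (3 : ℤ) ≤ (p : ℤ) := by exact_mod_cast hp
    _ = (p : ℤ) ^ 1 := (pow_one _).symm
    _ ≤ (p : ℤ) ^ t := pow_le_pow_right₀ (by exact_mod_cast (by omega : 1 ≤ p)) ht

theorem two_core {p q c s r s' r' : ℕ} (hp : p.Prime) (hq : q.Prime) (hpq : p ≠ q) (hp2 : p ≠ 2)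
    (hq2 : q ≠ 2) (hq3 : q ≠ 3) (hc : 1 ≤ c) (hr : 1 ≤ r) (hr' : 1 ≤ r')
    (hH : Fintype.card H = 2 ^ c) (hP : Fintype.card P = p ^ s) (hR : Fintype.card R = q ^ s')
    (f : (H × P) × R → ℤ) (hf : Ind f) (hF : Flat f (p ^ r * q ^ r')) (hc2 : c ≠ 2) (h0 : H)
    (hh0 : f ((h0, 0), 0) = 0) (hh : ∀ h, h ≠ h0 → f ((h, 0), 0) = 1) : False := by
  classical
  have hp3 : 3 ≤ p := by have := hp.two_le; omega
  have hq5 : 5 ≤ q := by
    have := hq.two_le
    have h4 : q ≠ 4 := by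
      rintro rfl
      exact absurd hq (by norm_num)
    omega
  have c2p : (2 : ℕ).Coprime p := Nat.coprime_two_left.mpr (hp.odd_of_ne_two hp2)
  have c2q : (2 : ℕ).Coprime q := Nat.coprime_two_left.mpr (hq.odd_of_ne_two hq2)
  have cpq : p.Coprime q := (Nat.coprime_primes hp hq).mpr hpq
  have oddP : Odd (Fintype.card P) := by rw [hP]; exact (hp.odd_of_ne_two hp2).pow
  have oddR : Odd (Fintype.card R) := by rw [hR]; exact (hq.odd_of_ne_two hq2).pow
  -- the three restrictions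
  have cHP : (Fintype.card (H × P)).Coprime (Fintype.card R) := by
    rw [Fintype.card_prod, hH, hP, hR]
    exact Nat.Coprime.mul_left (Nat.Coprime.pow _ _ c2q) (Nat.Coprime.pow _ _ cpq)
  obtain ⟨flP, dP⟩ := sub f hf oddR cHP (q ^ r') (p ^ r) (by
      rw [Fintype.card_prod, hH, hP]
      exact Nat.Coprime.mul_right (Nat.Coprime.pow _ _ c2q.symm) (Nat.Coprime.pow _ _ cpq.symm))
    (by rw [hR]; exact Nat.Coprime.pow _ _ cpq) (pow_pos hq.pos _) (by rwa [mul_comm])
  set fe : (H × R) × P → ℤ := fun w => f (exch H P R w) with hfe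
  have hfeI : Ind fe := fun w => hf _
  have hfeF : Flat fe (p ^ r * q ^ r') := hF.comp_equiv (exch H P R)
  have cHR : (Fintype.card (H × R)).Coprime (Fintype.card P) := by
    rw [Fintype.card_prod, hH, hP, hR]
    exact Nat.Coprime.mul_left (Nat.Coprime.pow _ _ c2p) (Nat.Coprime.pow _ _ cpq.symm)
  obtain ⟨flR, dR⟩ := sub fe hfeI oddP cHR (p ^ r) (q ^ r') (by
      rw [Fintype.card_prod, hH, hR]
      exact Nat.Coprime.mul_right (Nat.Coprime.pow _ _ c2p.symm) (Nat.Coprime.pow _ _ cpq))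
    (by rw [hP]; exact Nat.Coprime.pow _ _ cpq.symm) (pow_pos hp.pos _) hfeF
  have cH1 : (Fintype.card H).Coprime (Fintype.card P) := by
    rw [hH, hP]
    exact Nat.Coprime.pow _ _ c2p
  have cH2 : (Fintype.card H).Coprime (Fintype.card R) := by
    rw [hH, hR]
    exact Nat.Coprime.pow _ _ c2q
  obtain ⟨-, dHP⟩ := sub (fun x : H × P => f (x, 0)) (fun x => hf _) oddP cH1 (p ^ r) 1 (by
    rw [hH]; exact Nat.Coprime.pow _ _ c2p.symm) (Nat.coprime_one_left _) (pow_pos hp.pos _)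
    (by rwa [mul_one])
  obtain ⟨-, dHR⟩ := sub (fun z : H × R => fe (z, 0)) (fun x => hf _) oddR cH2 (q ^ r') 1 (by
    rw [hH]; exact Nat.Coprime.pow _ _ c2q.symm) (Nat.coprime_one_left _) (pow_pos hq.pos _)
    (by rwa [mul_one])
  obtain ⟨t, a, δ, hs, hδ, va, va0, -, -, hE, ha0, haT, ht1, -, hMT, -⟩ :=
    local_data hp hp2 hc hr hH hP (fun x : H × P => f (x, 0)) (fun x => hf _) flP h0 hh0 hh dHP
      (fun h => hc2 h.1)
  obtain ⟨t', a', δ', hs', hδ', va', va0', hca', hca'', hE', ha0', haT', ht1', -, hMT', -⟩ :=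
    local_data hq hq2 hc hr' hH hR (fun z : H × R => fe (z, 0)) (fun x => hf _) flR h0 hh0 hh dHR
      (fun h => hc2 h.1)
  obtain ⟨h1, hh1⟩ := Fintype.exists_ne_of_one_lt_card
    (show 1 < Fintype.card H by rw [hH]; exact Nat.one_lt_two_pow (by omega)) h0
  obtain ⟨T, hT⟩ : ∃ T : ℤ, T = (p : ℤ) ^ t := ⟨_, rfl⟩
  obtain ⟨T', hT'⟩ : ∃ T' : ℤ, T' = (q : ℤ) ^ t' := ⟨_, rfl⟩
  obtain ⟨N1, hN1⟩ : ∃ N1 : ℤ, N1 = (p : ℤ) ^ r := ⟨_, rfl⟩
  obtain ⟨N2, hN2⟩ : ∃ N2 : ℤ, N2 = (q : ℤ) ^ r' := ⟨_, rfl⟩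
  obtain ⟨M, hM⟩ : ∃ M : ℤ, M = 2 ^ c := ⟨_, rfl⟩
  have hT3 : 3 ≤ T := by rw [hT]; exact three_le_pow hp3 ht1
  have hT'3 : 3 ≤ T' := by rw [hT']; exact three_le_pow (by omega) ht1'
  have hN1p : 0 < N1 := by rw [hN1]; have := hp.pos; positivity
  have hN2p : 0 < N2 := by rw [hN2]; have := hq.pos; positivity
  have hMp : 0 < M := by rw [hM]; positivity
  have hPc : ((Fintype.card P : ℕ) : ℤ) = N1 * T := by
    rw [hP, hs, hN1, hT]
    push_cast
    rw [pow_add]
    ring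
  have hRc : ((Fintype.card R : ℕ) : ℤ) = N2 * T' := by
    rw [hR, hs', hN2, hT']
    push_cast
    rw [pow_add]
    ring
  rw [pow_add, ← hT, ← hN1, ← hM] at hE
  rw [pow_add, ← hT', ← hN2, ← hM] at hE'
  rw [← hT] at haT
  rw [← hT'] at haT'
  rw [← hT, ← hM] at hMT
  rw [← hT', ← hM] at hMT'
  -- the projections
  have gP : ∀ x : H × P, ∑ y, f (x, y) = N2 * a' + N2 * δ' * (1 - f (x, 0)) := by
    intro x
    refine proj_val f hf _ _ _ dP (h0, 0) (h1, 0) hh0 (hh h1 hh1) ?_ ?_ x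
    · have h := va0'
      rw [← hN2] at h
      exact h.trans (by ring)
    · have h := va' h1 hh1
      rw [← hN2] at h
      exact h
  have gR : ∀ z : H × R, ∑ x, fe (z, x) = N1 * a + N1 * δ * (1 - fe (z, 0)) := by
    intro z
    refine proj_val fe hfeI _ _ _ dR (h0, 0) (h1, 0) hh0 (hh h1 hh1) ?_ ?_ z
    · have h := va0
      rw [← hN1] at h
      exact h.trans (by ring)
    · have h := va h1 hh1
      rw [← hN1] at h
      exact h
  have sP : ∀ h : H, ∑ x : P, ∑ y : R, f ((h, x), y) =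
      N1 * N2 * T * a' + N2 * δ' * (N1 * T - ∑ x, f ((h, x), 0)) := by
    intro h
    simp only [gP, Finset.sum_add_distrib, ← Finset.mul_sum, Finset.sum_sub_distrib,
      Finset.sum_const, Finset.card_univ, nsmul_eq_mul, mul_one, hPc]
    ring
  have sR : ∀ h : H, ∑ y : R, ∑ x : P, fe ((h, y), x) =
      N1 * N2 * T' * a + N1 * δ * (N2 * T' - ∑ y, fe ((h, y), 0)) := by
    intro h
    simp only [gR, Finset.sum_add_distrib, ← Finset.mul_sum, Finset.sum_sub_distrib,
      Finset.sum_const, Finset.card_univ, nsmul_eq_mul, mul_one, hRc]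
    ring
  have hva : ∑ x, f ((h1, x), 0) = N1 * a := by
    rw [hN1]
    exact va h1 hh1
  have hva0 : ∑ x, f ((h0, x), 0) = N1 * (a + δ) := by
    rw [hN1]
    exact va0
  have hva' : ∑ y, fe ((h1, y), 0) = N2 * a' := by
    rw [hN2]
    exact va' h1 hh1
  obtain ⟨A, hA⟩ : ∃ A, A = T * a' + δ' * (T - a) := ⟨_, rfl⟩
  have s1 : ∀ h, h ≠ h0 → ∑ x : P, ∑ y : R, f ((h, x), y) = N1 * N2 * A := by
    intro h hne
    have h2 : ∑ x, f ((h, x), 0) = N1 * a := by
      rw [hN1]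
      exact va h hne
    rw [sP, h2, hA]
    ring
  have s0 : ∑ x : P, ∑ y : R, f ((h0, x), y) = N1 * N2 * (A - δ * δ') := by
    rw [sP, hva0, hA]
    ring
  have eqA : A = T' * a + δ * (T' - a') := by
    have e1 := s1 h1 hh1
    have e2 := sR h1
    rw [hva', Finset.sum_comm] at e2
    have e3 : ∑ x : P, ∑ y : R, fe ((h1, y), x) = ∑ x : P, ∑ y : R, f ((h1, x), y) := rfl
    rw [e3, e1] at e2
    have e4 : (N1 * N2) * A = (N1 * N2) * (T' * a + δ * (T' - a')) := by
      rw [e2]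
      ring
    exact mul_left_cancel₀ (mul_pos hN1p hN2p).ne' e4
  -- the total
  have hk : ∑ x, f x = N1 * N2 * (M * A - δ * δ') := by
    rw [Fintype.sum_prod_type, Fintype.sum_prod_type]
    rw [← Finset.add_sum_erase _ _ (Finset.mem_univ h0), s0,
      Finset.sum_congr rfl fun h hne => s1 h (Finset.ne_of_mem_erase hne), Finset.sum_const,
      Finset.card_erase_of_mem (Finset.mem_univ _), Finset.card_univ, hH, nsmul_eq_mul]
    have : 1 ≤ 2 ^ c := Nat.one_le_two_pow
    push_cast [Nat.cast_sub this]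
    rw [hM]
    ring
  have hV := hF.V_eq
  rw [Ind.V_eq hf, hk, Fintype.card_prod, Fintype.card_prod] at hV
  push_cast at hV
  rw [hPc, hRc, hH] at hV
  push_cast at hV
  rw [← hN1, ← hN2, ← hM] at hV
  have hδδ : (δ * δ') * (δ * δ') = 1 := by
    rcases hδ with h | h <;> rcases hδ' with h' | h' <;> rw [h, h'] <;> norm_num
  have hiv : M * A * (T * T' - A) - δ * δ' * (T * T' - 2 * A) = T * T' * (N1 * N2) := by
    have hne0 : (N1 * N2) ^ 2 * M ≠ 0 := by positivity
    apply mul_left_cancel₀ hne0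
    linear_combination hV + (N1 * N2) ^ 2 * hδδ
  -- `δ' = -1`
  have hδ'1 : δ' = -1 := by
    rcases hδ' with h | h
    · exfalso
      rw [h] at hca''
      have h6 := dvd_sub hca'' hca'
      have h7 : a' + 1 - (a' - 1) = 2 := by ring
      rw [h7] at h6
      have h8 : (q : ℤ) - 1 ≤ 2 := Int.le_of_dvd (by norm_num) h6
      have h9 : (5 : ℤ) ≤ q := by exact_mod_cast hq5
      omega
    · exact h
  subst hδ'1
  rcases hδ with hδ | hδ
  · subst hδ
    have hg2 : ((q : ℤ) - 1) ∣ T' - 1 := by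
      rw [hT']
      simpa using sub_dvd_pow_sub_pow (q : ℤ) 1 t'
    refine two_b (M := M) (T := T) (T' := T') (N1 := N1) (N2 := N2) (c := T - a) (c' := T' - a')
      (g := (q : ℤ) - 1) hT3 hT'3 hMT' (by omega) (by omega) (by omega) (by omega) ?_ ?_ hg2
      ?_ ?_ ?_ ?_
    · have h9 : (5 : ℤ) ≤ q := by exact_mod_cast hq5
      omega
    · have h9 := dvd_sub hg2 hca'
      have h10 : T' - 1 - (a' - 1) = T' - a' := by ring
      rwa [h10] at h9
    · linear_combination hE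
    · linear_combination hE'
    · rw [hA] at eqA
      linear_combination -eqA
    · rw [hA] at hiv
      linear_combination hiv
  · subst hδ
    refine two_a (M := M) (T := T) (T' := T') (N1 := N1) (N2 := N2) (c := T - a) (c' := T' - a')
      hT3 hT'3 hMT hMT' (by omega) (by omega) (by omega) (by omega) ?_ ?_ ?_ ?_
    · linear_combination hE
    · linear_combination hE'
    · rw [hA] at eqA
      linear_combination -eqA
    · rw [hA] at hiv
      linear_combination hiv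

theorem two_primes {p q c s r s' r' : ℕ} (hp : p.Prime) (hq : q.Prime) (hpq : p ≠ q) (hp2 : p ≠ 2)
    (hq2 : q ≠ 2) (hq3 : q ≠ 3) (hc : 1 ≤ c) (hr : 1 ≤ r) (hr' : 1 ≤ r')
    (hH : Fintype.card H = 2 ^ c) (hP : Fintype.card P = p ^ s) (hR : Fintype.card R = q ^ s')
    (f : (H × P) × R → ℤ) (hf : Ind f) (hF : Flat f (p ^ r * q ^ r')) (hc2 : c ≠ 2) : False := by
  classical
  have c2p : (2 : ℕ).Coprime p := Nat.coprime_two_left.mpr (hp.odd_of_ne_two hp2)
  have c2q : (2 : ℕ).Coprime q := Nat.coprime_two_left.mpr (hq.odd_of_ne_two hq2)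
  have hFa : Flat (fun w => f (assoc H P R w)) (p ^ r * q ^ r') := hF.comp_equiv (assoc H P R)
  obtain ⟨h0flat, -⟩ := sub (fun w => f (assoc H P R w)) (fun w => hf _) (by
      rw [Fintype.card_prod, hP, hR]
      exact (hp.odd_of_ne_two hp2).pow.mul (hq.odd_of_ne_two hq2).pow) (by
      rw [Fintype.card_prod, hH, hP, hR]
      exact Nat.Coprime.mul_right (Nat.Coprime.pow _ _ c2p) (Nat.Coprime.pow _ _ c2q))
    (p ^ r * q ^ r') 1 (by
      rw [hH]
      exact Nat.Coprime.mul_left (Nat.Coprime.pow _ _ c2p.symm) (Nat.Coprime.pow _ _ c2q.symm))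
    (Nat.coprime_one_left _) (Nat.mul_pos (pow_pos hp.pos _) (pow_pos hq.pos _)) (by rwa [mul_one])
  rcases two_group hc hH (fun q => f (assoc H P R (q, 0))) (fun q => hf _) one_pos h0flat with
    ⟨-, h0, hh0⟩ | ⟨a, ha, hNa, -⟩
  · rcases hf ((h0, 0), 0) with h1 | h1
    · refine two_core hp hq hpq hp2 hq2 hq3 hc hr hr' hH hP hR f hf hF hc2 h0 h1 fun h hne => ?_
      have h2 : f ((h, 0), 0) = 1 - f ((h0, 0), 0) := hh0 h hne
      rw [h2, h1]
      norm_num
    · refine two_core hp hq hpq hp2 hq2 hq3 hc hr hr' hH hP hR (fun x => 1 - f x) ?_ hF.compl hc2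
        h0 (by rw [h1]; norm_num) fun h hne => ?_
      · intro g
        rcases hf g with h2 | h2
        · right
          change 1 - f g = 1
          rw [h2]
          norm_num
        · left
          change 1 - f g = 0
          rw [h2]
          norm_num
      · have h2 : f ((h, 0), 0) = 1 - f ((h0, 0), 0) := hh0 h hne
        change 1 - f ((h, 0), 0) = 1
        rw [h2, h1]
        norm_num
  · have h2 : 2 ^ 1 ≤ 2 ^ a := Nat.pow_le_pow_right (by norm_num) ha
    omega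

end Pool.Agent.DSP
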