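import Pool.Agent.DS.Main
import Pool.Agent.DSP.TwoPrimes
import Pool.Agent.DSP.Expo
import Pool.Agent.DSP.Menon

/-!
# Abelian difference sets with multiplier `-1`: the order is a prime power
-/

set_option autoImplicit false

namespace Pool.Agent.DSP

open Finset Pool.Agent.DS

universe u

/-- Restriction to a direct factor. -/
theorem restrict {G : Type u} [AddCommGroup G] [Fintype G] (f : G → ℤ) (hf : Ind f)
    {a b N1 N2 : ℕ} (hab : a.Coprime b) (hG : Fintype.card G = a * b) (hb : Odd b)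
    (h1 : N1.Coprime b) (h2 : N2.Coprime a) (h0 : 0 < N2) (hF : Flat f (N2 * N1)) :
    ∃ (Q : Type u) (_ : AddCommGroup Q) (_ : Fintype Q) (g : Q → ℤ),
      Fintype.card Q = a ∧ Ind g ∧ Flat g N1 := by
  obtain ⟨Q, L, _, _, _, _, hQ, hL, ⟨e⟩⟩ := split (G := G) a b hab hG
  obtain ⟨hflat, -⟩ := sub (fun x => f (e x)) (fun x => hf (e x)) (by rw [hL]; exact hb)
    (by rw [hQ, hL]; exact hab) N2 N1 (by rw [hQ]; exact h2) (by rw [hL]; exact h1) h0
    (hF.comp_equiv e)
  exact ⟨Q, _, _, fun q => f (e (q, 0)), hQ, fun q => hf _, hflat⟩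

theorem dvd_of_part {N A B : ℕ} (h : N = A * B) (q : ℕ) (hq : q ∣ A) : q ∣ N :=
  h ▸ hq.mul_right B

/-- The data at one prime. -/
theorem one_prime {G : Type u} [AddCommGroup G] [Fintype G] (f : G → ℤ) (hf : Ind f) {N : ℕ}
    (hF : Flat f N) (hN : 0 < N) {m c : ℕ} (hv : Fintype.card G = 2 ^ c * m) (hm : Odd m)
    (hc : 3 ≤ c) (hA : ∀ q : ℕ, q.Prime → q ∣ N → q ∣ m) {p : ℕ} (hp : p.Prime) (hpm : p ∣ m)
    (hr : 1 ≤ N.factorization p) :
    ∃ t : ℕ, m.factorization p = t + N.factorization p ∧ 1 ≤ t ∧ 2 * t ≤ N.factorization p ∧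
      4 * p ^ (N.factorization p - t) < 2 ^ c ∧ ∃ Y Z x y : ℕ, Y + Z = p ^ t ∧
        x + y = 2 ^ (c - 1) ∧ Y * x = Z * y + 1 ∧ Y * x + Z * y = p ^ N.factorization p ∧
        (p ≠ 3 → (p - 1) ∣ Z) := by
  classical
  have hm0 : m ≠ 0 := by
    rintro rfl
    exact absurd hm (by decide)
  have hp2 : p ≠ 2 := by
    rintro rfl
    exact (Nat.not_even_iff_odd.mpr hm) (even_iff_two_dvd.mpr hpm)
  have hpodd : Odd p := hp.odd_of_ne_two hp2
  obtain ⟨r, hrdef⟩ : ∃ r, r = N.factorization p := ⟨_, rfl⟩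
  obtain ⟨s, hsdef⟩ : ∃ s, s = m.factorization p := ⟨_, rfl⟩
  rw [← hrdef] at hr ⊢
  rw [← hsdef]
  obtain ⟨m', hms⟩ : ∃ m', m' = m / p ^ s := ⟨_, rfl⟩
  obtain ⟨N', hNr⟩ : ∃ N', N' = N / p ^ r := ⟨_, rfl⟩
  have hm' : p ^ s * m' = m := by
    rw [hms, hsdef]
    exact Nat.ordProj_mul_ordCompl_eq_self m p
  have hN' : p ^ r * N' = N := by
    rw [hNr, hrdef]
    exact Nat.ordProj_mul_ordCompl_eq_self N p
  have hpm' : ¬ p ∣ m' := by
    rw [hms, hsdef]
    exact Nat.not_dvd_ordCompl hp hm0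
  have hpN' : ¬ p ∣ N' := by
    rw [hNr, hrdef]
    exact Nat.not_dvd_ordCompl hp hN.ne'
  have hm'odd : Odd m' := by
    rw [← hm'] at hm
    exact (Nat.odd_mul.mp hm).2
  have hN'0 : 0 < N' := by
    rcases Nat.eq_zero_or_pos N' with h | h
    · rw [h, mul_zero] at hN'
      omega
    · exact h
  have c2p : (2 : ℕ).Coprime p := Nat.coprime_two_left.mpr hpodd
  have cpm : p.Coprime m' := (Nat.Prime.coprime_iff_not_dvd hp).mpr hpm'
  have cpN : p.Coprime N' := (Nat.Prime.coprime_iff_not_dvd hp).mpr hpN'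
  have c2m : (2 : ℕ).Coprime m' := Nat.coprime_two_left.mpr hm'odd
  have c2N : (2 : ℕ).Coprime N' := by
    rw [Nat.Prime.coprime_iff_not_dvd Nat.prime_two]
    intro h
    have h2 : 2 ∣ m := hA 2 Nat.prime_two (hN' ▸ h.mul_left _)
    exact (Nat.not_even_iff_odd.mpr hm) (even_iff_two_dvd.mpr h2)
  obtain ⟨Q, _, _, g, hQ, hg, hgF⟩ := restrict (a := 2 ^ c * p ^ s) (b := m') (N1 := p ^ r)
    (N2 := N') f hf (Nat.Coprime.mul_left (c2m.pow_left c) (cpm.pow_left s))
    (by rw [hv, ← hm']; ring) hm'odd (cpm.pow_left r)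
    (Nat.Coprime.mul_right (c2N.symm.pow_right c) (cpN.symm.pow_right s)) hN'0
    (by rw [mul_comm, hN']; exact hF)
  obtain ⟨H, P, _, _, _, _, hH, hP, ⟨e⟩⟩ := split (G := Q) (2 ^ c) (p ^ s) (c2p.pow c s) hQ
  have hodd : Odd (Fintype.card P) := by
    rw [hP]
    exact hpodd.pow
  have hcop : (Fintype.card H).Coprime (Fintype.card P) := by
    rw [hH, hP]
    exact c2p.pow c s
  have hgE : Flat (fun x => g (e x)) (p ^ r) := hgF.comp_equiv e
  obtain ⟨h0flat, hdiff⟩ := sub (fun x => g (e x)) (fun x => hg _) hodd hcop (p ^ r) 1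
    (by rw [hH]; exact c2p.symm.pow r c) (Nat.coprime_one_left _) (pow_pos hp.pos r)
    (by rwa [mul_one])
  have hne : ¬ (c = 2 ∧ s = 2 * r) := fun h => by omega
  rcases two_group (by omega) hH (fun q => g (e (q, 0))) (fun q => hg _) one_pos h0flat with
    ⟨-, h0, hh0⟩ | ⟨a, ha, hNa, -⟩
  · have key : ∃ (t : ℕ) (a δ : ℤ), s = t + r ∧ 1 ≤ t ∧ 2 * t ≤ r ∧
        4 * p ^ (r - t) < 2 ^ c ∧ ∃ Y Z x y : ℕ, Y + Z = p ^ t ∧ x + y = 2 ^ (c - 1) ∧
        Y * x = Z * y + 1 ∧ Y * x + Z * y = p ^ r ∧ (p ≠ 3 → (p - 1) ∣ Z) := by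
      rcases hg (e (h0, 0)) with h1 | h1
      · obtain ⟨t, a, δ, hs, -, -, -, -, -, -, -, -, ht1, htr, -, h4, h5⟩ :=
          local_data hp hp2 (by omega) hr hH hP (fun x => g (e x)) (fun x => hg _) hgE h0 h1
            (fun h hne => by
              have h2 : g (e (h, 0)) = 1 - g (e (h0, 0)) := hh0 h hne
              rw [h2, h1]
              norm_num) hdiff hne
        exact ⟨t, a, δ, hs, ht1, htr, h4, h5⟩
      · obtain ⟨t, a, δ, hs, -, -, -, -, -, -, -, -, ht1, htr, -, h4, h5⟩ :=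
          local_data hp hp2 (by omega) hr hH hP (fun x => 1 - g (e x)) (fun x => by
              rcases hg (e x) with h2 | h2
              · right
                change 1 - g (e x) = 1
                rw [h2]
                norm_num
              · left
                change 1 - g (e x) = 0
                rw [h2]
                norm_num) hgE.compl h0 (by rw [h1]; norm_num)
            (fun h hne => by
              have h2 : g (e (h, 0)) = 1 - g (e (h0, 0)) := hh0 h hne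
              rw [h2, h1]
              norm_num) (fun q q' => by
              have h3 := hdiff q q'
              simp only [Finset.sum_sub_distrib]
              have h4 : ∀ A B C : ℤ, (A - B - (A - C)) ^ 2 = (B - C) ^ 2 := fun A B C => by ring
              rw [h4, h3]
              ring) hne
        exact ⟨t, a, δ, hs, ht1, htr, h4, h5⟩
    obtain ⟨t, a, δ, hs, ht1, htr, h4, h5⟩ := key
    exact ⟨t, hs, ht1, htr, h4, h5⟩
  · have h2 : 2 ^ 1 ≤ 2 ^ a := Nat.pow_le_pow_right (by norm_num) ha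
    omega

/-- Two different odd primes do not divide the order of the group. -/
theorem no_two {G : Type u} [AddCommGroup G] [Fintype G] (f : G → ℤ) (hf : Ind f) {N : ℕ}
    (hF : Flat f N) (hN : 0 < N) {m c : ℕ} (hv : Fintype.card G = 2 ^ c * m) (hm : Odd m)
    (hc : 3 ≤ c) (hA : ∀ q : ℕ, q.Prime → q ∣ N → q ∣ m) {p q : ℕ} (hp : p.Prime) (hq : q.Prime)
    (hpq : p ≠ q) (hq3 : q ≠ 3) (hpm : p ∣ m) (hqm : q ∣ m)
    (hr : 1 ≤ N.factorization p) (hr' : 1 ≤ N.factorization q) : False := by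
  classical
  have hm0 : m ≠ 0 := by
    rintro rfl
    exact absurd hm (by decide)
  have hodd : ∀ l : ℕ, l.Prime → l ∣ m → l ≠ 2 := by
    rintro l hl hlm rfl
    exact (Nat.not_even_iff_odd.mpr hm) (even_iff_two_dvd.mpr hlm)
  have hp2 := hodd p hp hpm
  have hq2 := hodd q hq hqm
  have cpq : p.Coprime q := (Nat.coprime_primes hp hq).mpr hpq
  obtain ⟨s, m1, hpm1, hm1⟩ := Nat.exists_eq_pow_mul_and_not_dvd hm0 p hp.ne_one
  obtain ⟨r, N1, hpN1, hN1⟩ := Nat.exists_eq_pow_mul_and_not_dvd hN.ne' p hp.ne_one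
  have hm10 : m1 ≠ 0 := by
    rintro rfl
    exact hpm1 (dvd_zero _)
  have hN10 : N1 ≠ 0 := by
    rintro rfl
    exact hpN1 (dvd_zero _)
  obtain ⟨s', m', hqm', hm'⟩ := Nat.exists_eq_pow_mul_and_not_dvd hm10 q hq.ne_one
  obtain ⟨r', N', hqN', hN'⟩ := Nat.exists_eq_pow_mul_and_not_dvd hN10 q hq.ne_one
  have hpm' : ¬ p ∣ m' := fun h => hpm1 (hm' ▸ h.mul_left _)
  have hpN' : ¬ p ∣ N' := fun h => hpN1 (hN' ▸ h.mul_left _)
  have hN'0 : N' ≠ 0 := by
    rintro rfl
    exact hpN' (dvd_zero _)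
  have hrr : 1 ≤ r := by
    by_contra hcon
    have h0 : r = 0 := by omega
    rw [h0, pow_zero, one_mul] at hN1
    rw [hN1, Nat.factorization_eq_zero_of_not_dvd hpN1] at hr
    omega
  have hrr' : 1 ≤ r' := by
    by_contra hcon
    have h0 : r' = 0 := by omega
    rw [h0, pow_zero, one_mul] at hN'
    have h1 : ¬ q ∣ N := by
      intro h
      rw [hN1] at h
      rcases hq.dvd_mul.mp h with h2 | h2
      · exact hpq ((Nat.prime_dvd_prime_iff_eq hq hp).mp (hq.dvd_of_dvd_pow h2)).symm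
      · rw [hN'] at h2
        exact hqN' h2
    rw [Nat.factorization_eq_zero_of_not_dvd h1] at hr'
    omega
  have hm'odd : Odd m' := by
    rw [hm1, hm'] at hm
    exact (Nat.odd_mul.mp (Nat.odd_mul.mp hm).2).2
  have c2p : (2 : ℕ).Coprime p := Nat.coprime_two_left.mpr (hp.odd_of_ne_two hp2)
  have c2q : (2 : ℕ).Coprime q := Nat.coprime_two_left.mpr (hq.odd_of_ne_two hq2)
  have cpm : p.Coprime m' := (Nat.Prime.coprime_iff_not_dvd hp).mpr hpm'
  have cqm : q.Coprime m' := (Nat.Prime.coprime_iff_not_dvd hq).mpr hqm'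
  have cpN : p.Coprime N' := (Nat.Prime.coprime_iff_not_dvd hp).mpr hpN'
  have cqN : q.Coprime N' := (Nat.Prime.coprime_iff_not_dvd hq).mpr hqN'
  have c2m : (2 : ℕ).Coprime m' := Nat.coprime_two_left.mpr hm'odd
  have c2N : (2 : ℕ).Coprime N' := by
    rw [Nat.Prime.coprime_iff_not_dvd Nat.prime_two]
    intro h
    have h2 : 2 ∣ m := hA 2 Nat.prime_two (by rw [hN1, hN']; exact (h.mul_left _).mul_left _)
    exact hodd 2 Nat.prime_two h2 rfl
  obtain ⟨Q, _, _, g, hQ, hg, hgF⟩ := restrict (a := (2 ^ c * p ^ s) * q ^ s') (b := m')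
    (N1 := p ^ r * q ^ r') (N2 := N') f hf
    (Nat.Coprime.mul_left (Nat.Coprime.mul_left (c2m.pow_left c) (cpm.pow_left s))
      (cqm.pow_left s')) (by rw [hv, hm1, hm']; ring) hm'odd
    (Nat.Coprime.mul_left (cpm.pow_left r) (cqm.pow_left r'))
    (Nat.Coprime.mul_right (Nat.Coprime.mul_right (c2N.symm.pow_right c) (cpN.symm.pow_right s))
      (cqN.symm.pow_right s')) (Nat.pos_of_ne_zero hN'0)
    (by
      have h : N' * (p ^ r * q ^ r') = N := by
        rw [hN1, hN']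
        ring
      rw [h]
      exact hF)
  obtain ⟨K, R, _, _, _, _, hK, hR, ⟨e⟩⟩ := split (G := Q) (2 ^ c * p ^ s) (q ^ s')
    (Nat.Coprime.mul_left (c2q.pow c s') (cpq.pow s s')) hQ
  obtain ⟨H, P, _, _, _, _, hH, hP, ⟨e'⟩⟩ := split (G := K) (2 ^ c) (p ^ s) (c2p.pow c s) hK
  let E : (H × P) × R ≃+ Q := (AddEquiv.prodCongr e' (AddEquiv.refl R)).trans e
  exact two_primes hp hq hpq hp2 hq2 hq3 (by omega) hrr hrr' hH hP hR (fun x => g (E x))
    (fun x => hg _) (hgF.comp_equiv E) (by omega)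

/-- The exponents in the case `v = 4 n`. -/
theorem menon_loc {G : Type u} [AddCommGroup G] [Fintype G] (f : G → ℤ) (hf : Ind f)
    {N A B : ℕ} (hF : Flat f N) (hN : 0 < N) (hAB : N = A * B) {m c : ℕ}
    (hv : Fintype.card G = 2 ^ c * m) (hm : Odd m) (hB : B.Coprime m)
    (hA : ∀ q : ℕ, q.Prime → q ∣ A → q ∣ m) {p : ℕ} (hp : p.Prime) (hp3 : 3 < p) (hpm : p ∣ m)
    (hr : 1 ≤ N.factorization p) (h4 : 2 ^ c = 4 * B ^ 2)
    (hs : m.factorization p = 2 * N.factorization p) : Even (N.factorization p) := by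
  classical
  have hm0 : m ≠ 0 := by
    rintro rfl
    exact absurd hm (by decide)
  have hA0 : A ≠ 0 := by
    rintro rfl
    rw [zero_mul] at hAB
    omega
  have hB0 : B ≠ 0 := by
    rintro rfl
    rw [mul_zero] at hAB
    omega
  have hp2 : p ≠ 2 := by omega
  have hpodd : Odd p := hp.odd_of_ne_two hp2
  obtain ⟨s, m', hpm', hms⟩ := Nat.exists_eq_pow_mul_and_not_dvd hm0 p hp.ne_one
  obtain ⟨r, A', hpA', hAr⟩ := Nat.exists_eq_pow_mul_and_not_dvd hA0 p hp.ne_one
  have hpB : ¬ p ∣ B := fun h => by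
    have := Nat.dvd_gcd h hpm
    rw [hB] at this
    exact hp.one_lt.ne' (Nat.dvd_one.mp this)
  have hm'0 : m' ≠ 0 := by
    rintro rfl
    exact hpm' (dvd_zero p)
  have hA'0 : A' ≠ 0 := by
    rintro rfl
    exact hpA' (dvd_zero p)
  have hsf : m.factorization p = s := by
    rw [hms, Nat.factorization_mul (pow_ne_zero _ hp.ne_zero) hm'0, hp.factorization_pow,
      Finsupp.add_apply, Finsupp.single_eq_same, Nat.factorization_eq_zero_of_not_dvd hpm', add_zero]
  have hrf : N.factorization p = r := by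
    rw [hAB, hAr, Nat.factorization_mul (mul_ne_zero (pow_ne_zero _ hp.ne_zero) hA'0) hB0,
      Nat.factorization_mul (pow_ne_zero _ hp.ne_zero) hA'0, hp.factorization_pow]
    simp [Nat.factorization_eq_zero_of_not_dvd hpA', Nat.factorization_eq_zero_of_not_dvd hpB]
  rw [hrf] at hr hs ⊢
  rw [hsf] at hs
  have hm'odd : Odd m' := by
    rw [hms] at hm
    exact (Nat.odd_mul.mp hm).2
  have c2p : (2 : ℕ).Coprime p := Nat.coprime_two_left.mpr hpodd
  have cpm : p.Coprime m' := (Nat.Prime.coprime_iff_not_dvd hp).mpr hpm'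
  have cpB : p.Coprime B := (Nat.Prime.coprime_iff_not_dvd hp).mpr hpB
  have cpA : p.Coprime A' := (Nat.Prime.coprime_iff_not_dvd hp).mpr hpA'
  have c2m : (2 : ℕ).Coprime m' := Nat.coprime_two_left.mpr hm'odd
  have c2A : (2 : ℕ).Coprime A' := by
    rw [Nat.Prime.coprime_iff_not_dvd Nat.prime_two]
    intro h
    have h2 : 2 ∣ m := hA 2 Nat.prime_two (hAr ▸ (h.mul_left _))
    exact (Nat.not_even_iff_odd.mpr hm) (even_iff_two_dvd.mpr h2)
  obtain ⟨Q, _, _, g, hQ, hg, hgF⟩ := restrict (a := 2 ^ c * p ^ s) (b := m') (N1 := p ^ r * B)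
    (N2 := A') f hf (Nat.Coprime.mul_left (c2m.pow_left c) (cpm.pow_left s))
    (by rw [hv, hms]; ring) hm'odd
    (Nat.Coprime.mul_left (cpm.pow_left r) (hB.coprime_dvd_right ⟨p ^ s, by rw [hms]; ring⟩))
    (Nat.Coprime.mul_right (c2A.symm.pow_right c) (cpA.symm.pow_right s))
    (Nat.pos_of_ne_zero hA'0)
    (by
      have h : A' * (p ^ r * B) = N := by
        rw [hAB, hAr]
        ring
      rw [h]
      exact hF)
  obtain ⟨H, P, _, _, _, _, hH, hP, ⟨e⟩⟩ := split (G := Q) (2 ^ c) (p ^ s) (c2p.pow c s) hQ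
  exact menon_even hp hp3 hr hH hP cpB.symm (Nat.pos_of_ne_zero hB0) (fun x => g (e x))
    (fun x => hg _) (hgF.comp_equiv e) h4 hs

/-- If all prime factors of `x ≠ 0` are equal to `p`, then `x` is a power of `p`. -/
theorem eq_pow {p x : ℕ} (hp : p.Prime) (hx : x ≠ 0) (h : ∀ q : ℕ, q.Prime → q ∣ x → q = p) :
    x = p ^ x.factorization p := by
  apply Nat.eq_of_factorization_eq hx (pow_ne_zero _ hp.ne_zero)
  intro q
  rw [hp.factorization_pow]
  by_cases hq : q = p
  · rw [hq, Finsupp.single_eq_same]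
  · rw [Finsupp.single_eq_of_ne hq]
    by_cases hq1 : q.Prime
    · exact Nat.factorization_eq_zero_of_not_dvd fun h2 => hq (h q hq1 h2)
    · exact Nat.factorization_eq_zero_of_not_prime _ hq1

theorem main {G : Type u} [AddCommGroup G] [Fintype G] [DecidableEq G] (D : Finset G)
    (v k lam n : ℕ) (hv : Fintype.card G = v) (hk : D.card = k) (hn : n = k - lam)
    (hD : IsDiffSet D lam) (hneg : NegMult D) (h1 : 1 < k) (h2 : k < v - 1) :
    (v = 4 * n ∧ ∀ q : ℕ, q.Prime → 3 < q → 4 ∣ padicValNat q n) ∨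
      (v, k, lam) = (4000, 775, 150) ∨ (v, k, lam) = (4000, 3225, 2600) ∨
      ∃ p r t c a b x y : ℕ, p.Prime ∧ p ≠ 2 ∧ n = p ^ (2 * r) ∧ v = 2 ^ c * p ^ (r + t) ∧
        (k = p ^ r * (2 ^ c * b + 1) ∨ v - k = p ^ r * (2 ^ c * b + 1)) ∧
        10 ^ 8 < n ∧ 6 ≤ r ∧ 8 ≤ r + t ∧ 1 ≤ t ∧ 2 * t ≤ r ∧ 4 * p ^ (r - t) < 2 ^ c ∧
        (p ≠ 3 → 2 ∣ r ∧ (p - 1) ∣ b) ∧ (p % 4 = 3 → 2 ∣ r + t) ∧ (p = 3 → 9 ≤ r) ∧
        a + b = p ^ t ∧ x + y = 2 ^ (c - 1) ∧ a * x = b * y + 1 ∧ a * x + b * y = p ^ r ∧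
        ∀ g : G, (2 * p ^ t) • g = 0 := by
  classical
  subst hk
  obtain ⟨hev, hlam, N, f, hN0, hN1, hNn, hf, hF, hsum⟩ :=
    start D lam hD hneg h1 (by rw [hv]; exact h2)
  have hv0 : v ≠ 0 := by omega
  obtain ⟨c, m, hm2, hvm⟩ := Nat.exists_eq_pow_mul_and_not_dvd hv0 2 (by norm_num)
  have hmodd : Odd m := by
    rw [← Nat.not_even_iff_odd, even_iff_two_dvd]
    exact hm2
  have hc : 1 ≤ c := by
    by_contra hcon
    have : c = 0 := by omega
    rw [this, pow_zero, one_mul] at hvm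
    rw [hv, hvm] at hev
    exact (Nat.not_even_iff_odd.mpr hmodd) hev
  have hm0 : m ≠ 0 := by
    rintro rfl
    exact absurd hmodd (by decide)
  obtain ⟨A, B, hAB, hB, hA0, hB0, hA⟩ := exists_part m N hN0
  have hloc : ∀ p : ℕ, p.Prime → p ∣ m → _ := fun p hp hpm =>
    loc f hf hF hN0 hN1 hAB (by rw [hv, hvm]) hmodd hc hB hA hp hpm
  rcases Pool.Agent.DS.main D v D.card lam n hv rfl hn hD hneg h1 h2 with
    h | h | h | ⟨hnodd, hn8, hall⟩
  · refine Or.inl ⟨h, fun q hq hq3 => ?_⟩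
    have : Fact q.Prime := ⟨hq⟩
    rw [← hn] at hNn
    have hn0 : n ≠ 0 := by
      rw [hNn]
      positivity
    have hvn : padicValNat q n = 2 * N.factorization q := by
      rw [hNn, padicValNat.pow, ← Nat.factorization_def N hq]
    rw [hvn]
    have hq2 : q ≠ 2 := by omega
    have hvv : m.factorization q = 2 * N.factorization q := by
      have e1 : padicValNat q v = m.factorization q := by
        rw [← Nat.factorization_def v hq, hvm, Nat.factorization_mul (by positivity) hm0,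
          Finsupp.add_apply, Nat.Prime.factorization_pow Nat.prime_two,
          Finsupp.single_eq_of_ne hq2, zero_add]
      have e2 : padicValNat q v = padicValNat q n := by
        rw [h, padicValNat.mul (by norm_num) hn0]
        have : padicValNat q 4 = 0 := by
          apply padicValNat.eq_zero_of_not_dvd
          intro h5
          have h6 : q ∣ 2 ^ 2 := by norm_num; exact h5
          exact hq2 ((Nat.prime_dvd_prime_iff_eq hq Nat.prime_two).mp (hq.dvd_of_dvd_pow h6))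
        omega
      rw [← e1, e2, hvn]
    by_cases hz : N.factorization q = 0
    · rw [hz]
      norm_num
    · have hqm : q ∣ m := by
        by_contra h5
        rw [Nat.factorization_eq_zero_of_not_dvd h5] at hvv
        omega
      have h6 : Even (N.factorization q) := by
        refine menon_loc f hf hF hN0 hAB (by rw [hv, hvm]) hmodd hB hA hq hq3 hqm (by omega)
          ?_ hvv
        rcases (hloc q hq hqm).2 with h7 | h7
        · exact h7.1
        · have h8 := h7.2.lt'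
          omega
      obtain ⟨j, hj⟩ := h6
      exact ⟨j, by omega⟩
  · exact Or.inr (Or.inl h)
  · exact Or.inr (Or.inr (Or.inl h))
  rw [← hn] at hNn
  right
  right
  right
  have hn1 : n ≠ 1 := by omega
  obtain ⟨p, hp, hpn⟩ := Nat.exists_prime_and_dvd hn1
  obtain ⟨hp12, hp8, -, -, hlt, hlt'⟩ := hall p hp hpn
  have hp2 : p ≠ 2 := by
    rintro rfl
    exact (Nat.not_even_iff_odd.mpr hnodd) (even_iff_two_dvd.mpr hpn)
  have hpv : p ∣ v := dvd_trans (dvd_pow_self p (by norm_num)) hp8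
  have hpm : p ∣ m := by
    rw [hvm] at hpv
    rcases hp.dvd_mul.mp hpv with h | h
    · exact absurd ((Nat.prime_dvd_prime_iff_eq hp Nat.prime_two).mp (hp.dvd_of_dvd_pow h)) hp2
    · exact h
  have : Fact p.Prime := ⟨hp⟩
  have hvn : padicValNat p n = 2 * N.factorization p := by
    rw [hNn, padicValNat.pow, ← Nat.factorization_def N hp]
  have hvv : padicValNat p v = m.factorization p := by
    rw [← Nat.factorization_def v hp, hvm, Nat.factorization_mul (by positivity) hm0,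
      Finsupp.add_apply, Nat.Prime.factorization_pow Nat.prime_two,
      Finsupp.single_eq_of_ne hp2, zero_add]
  rw [hvn, hvv] at hlt hlt'
  obtain ⟨hB1, hEp⟩ : B = 1 ∧ Exc p c (N.factorization p) (m.factorization p) := by
    rcases (hloc p hp hpm).2 with h | h
    · exfalso
      have := h.2
      omega
    · exact h
  have hc3 := hEp.hc
  have hNA : N = A := by rw [hAB, hB1, mul_one]
  have hAm : ∀ q : ℕ, q.Prime → q ∣ N → q ∣ m := fun q hq h => hA q hq (hNA ▸ h)
  have honly : ∀ q : ℕ, q.Prime → q ∣ m → q = p := by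
    intro q hq hqm
    by_contra hne
    have hr := (hloc p hp hpm).1
    have hr' := (hloc q hq hqm).1
    by_cases hq3 : q = 3
    · exact no_two f hf hF hN0 (by rw [hv, hvm]) hmodd hc3 hAm hq hp hne
        (fun h => hne (hq3.trans h.symm)) hqm hpm hr' hr
    · exact no_two f hf hF hN0 (by rw [hv, hvm]) hmodd hc3 hAm hp hq (Ne.symm hne) hq3 hpm hqm
        hr hr'
  have hmp := eq_pow hp hm0 honly
  have hNp := eq_pow hp hN0.ne' fun q hq hqN => honly q hq (hAm q hq hqN)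
  obtain ⟨t, hst, ht1, htr, h4, Y, Z, x, y, hYZ, hxy, he1, he2, hZ⟩ :=
    one_prime f hf hF hN0 (by rw [hv, hvm]) hmodd hc3 hAm hp hpm (hloc p hp hpm).1
  obtain ⟨r, hr⟩ : ∃ r, r = N.factorization p := ⟨_, rfl⟩
  rw [← hr] at hNp hst htr h4 he2 hEp
  rw [hst] at hmp hEp
  have hn2 : n = p ^ (2 * r) := by
    rw [hNn, hNp, ← pow_mul, mul_comm]
  have hvp : v = 2 ^ c * p ^ (r + t) := by
    rw [hvm, hmp, add_comm r t]
  have hr6 : 6 ≤ r := by
    rw [hn2, Nat.pow_dvd_pow_iff_le_right hp.one_lt] at hp12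
    omega
  refine ⟨p, r, t, c, Y, Z, x, y, hp, hp2, hn2, hvp, ?_, hn8, hr6, ?_, ht1, htr, h4, ?_, ?_, ?_,
    hYZ, hxy, he1, he2, fun g => ?_⟩
  · -- the value of `k`
    have hV := hF.V_eq
    rw [Ind.V_eq hf, hsum, hv, hNp, hvp] at hV
    push_cast at hV
    obtain ⟨c', hc'⟩ : ∃ c', c = c' + 1 := ⟨c - 1, by omega⟩
    have e1 : (Y : ℤ) + Z = (p : ℤ) ^ t := by exact_mod_cast hYZ
    have e2 : (x : ℤ) + y = 2 ^ c' := by
      have : x + y = 2 ^ c' := by rw [hxy, hc', Nat.add_sub_cancel]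
      exact_mod_cast this
    have e3 : (Y : ℤ) * x = Z * y + 1 := by exact_mod_cast he1
    have e4 : (Y : ℤ) * x + Z * y = (p : ℤ) ^ r := by exact_mod_cast he2
    have e5 : (2 : ℤ) ^ c = 2 * 2 ^ c' := by rw [hc', pow_succ]; ring
    obtain ⟨W, hW⟩ : ∃ W : ℕ, W = p ^ r * (2 ^ c * Z + 1) := ⟨_, rfl⟩
    have hWZ : (W : ℤ) = (p : ℤ) ^ r * (2 * (x + y) * Z + 1) := by
      rw [hW]
      push_cast
      rw [e5, e2]
    have hvZ : (v : ℤ) = 2 * (x + y) * ((p : ℤ) ^ r * (Y + Z)) := by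
      rw [hvp]
      push_cast
      rw [pow_add, e5, e2, e1]
    rw [pow_add, e5, ← e2, ← e1] at hV
    have key : ((D.card : ℤ) - W) * ((v : ℤ) - D.card - W) = 0 := by
      rw [hWZ, hvZ]
      linear_combination hV + ((p : ℤ) ^ r) ^ 2 * (2 * (x + y)) * (Y - Z) * e3 -
        ((p : ℤ) ^ r) ^ 2 * (2 * (x + y)) * (Y + Z) * e4
    rw [← hW]
    rcases mul_eq_zero.mp key with h | h
    · left
      omega
    · right
      omega
  · exact (by have := hEp.eight hr6; omega)
  · intro h3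
    obtain ⟨j, hj⟩ := hEp.even h3
    exact ⟨⟨j, by omega⟩, hZ h3⟩
  · intro h3
    obtain ⟨j, hj⟩ := hEp.even' h3
    exact ⟨j, by omega⟩
  · intro h3
    exact hEp.three h3
  · have h5 := exp_thm (s := t + r) hp hp2 hc3 (by omega) (by rw [hv, hvp, add_comm r t]) f hf
      (hNp ▸ hF) g
    rwa [Nat.add_sub_cancel] at h5

end Pool.Agent.DSP
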